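import Pool.Agent.W_MP_c8d476_an.WeakCR

open scoped Topology ContDiff ComplexConjugate
open MeasureTheory Complex

noncomputable section

namespace Pool.Agent.W_MP_c8d476_an


variable {n c : ℕ}

def F1 (a c : ℂ) : ℂ := (1 - a) * (2 * a * c - a - c) / (2 * (2 - a - c))
def F2 (a b c : ℂ) : ℂ := (1 - a) * (1 - c) * b / (Real.sqrt 2 * (2 - a - c))
def F3 (a c d : ℂ) : ℂ := (1 - a) ^ 2 * d / (Real.sqrt 2 * (2 - a - c))
def F4 (a : ℂ) : ℂ := (1 + a) / 2
def F5 (b : ℂ) : ℂ := b / Real.sqrt 2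

theorem key_id (a c : ℂ) : normSq (2 - a - c) = normSq (2 * a * c - a - c) +
    2 * (1 - normSq a) * normSq (1 - c) + 2 * (1 - normSq c) * normSq (1 - a) := by
  simp [normSq_apply]
  ring

theorem normSq_sqrt2 : normSq ((Real.sqrt 2 : ℝ) : ℂ) = 2 := by
  rw [normSq_ofReal, Real.mul_self_sqrt (by norm_num)]

/-- closed bi-ball conditions -/
def InD (a b c d : ℂ) : Prop := normSq a + normSq b ≤ 1 ∧ normSq c + normSq d ≤ 1

theorem den_zero {a b c d : ℂ} (h : InD a b c d) (h0 : 2 - a - c = 0) : a = 1 ∧ c = 1 := by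
  have h1 := normSq_nonneg b
  have h2 := normSq_nonneg d
  have ha : normSq a ≤ 1 := by have := h.1; linarith
  have hc : normSq c ≤ 1 := by have := h.2; linarith
  have hre := congrArg re h0
  have him := congrArg im h0
  simp at hre him
  rw [normSq_apply] at ha hc
  have e1 : a.re = 1 := by nlinarith [mul_self_nonneg a.im, mul_self_nonneg c.im]
  have e2 : c.re = 1 := by nlinarith [mul_self_nonneg a.im, mul_self_nonneg c.im]
  have e3 : a.im = 0 := by nlinarith [mul_self_nonneg a.im]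
  have e4 : c.im = 0 := by nlinarith [mul_self_nonneg c.im]
  exact ⟨Complex.ext (by simp [e1]) (by simp [e3]), Complex.ext (by simp [e2]) (by simp [e4])⟩

theorem F1_bound {a b c d : ℂ} (h : InD a b c d) : normSq (F1 a c) ≤ normSq (1 - a) / 4 := by
  unfold F1
  by_cases h0 : 2 - a - c = 0
  · rw [h0, mul_zero, div_zero, normSq_zero]
    have := normSq_nonneg (1 - a)
    linarith
  · have hD : 0 < normSq (2 - a - c) := normSq_pos.2 h0
    have k := key_id a c
    have h1 := normSq_nonneg b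
    have h2 := normSq_nonneg d
    have ha : normSq a ≤ 1 := by have := h.1; linarith
    have hc : normSq c ≤ 1 := by have := h.2; linarith
    have h3 : 0 ≤ 2 * (1 - normSq a) * normSq (1 - c) :=
      mul_nonneg (by linarith) (normSq_nonneg _)
    have h4 : 0 ≤ 2 * (1 - normSq c) * normSq (1 - a) :=
      mul_nonneg (by linarith) (normSq_nonneg _)
    have h5 : normSq (2 * a * c - a - c) ≤ normSq (2 - a - c) := by linarith
    rw [normSq_div, normSq_mul, normSq_mul]
    have h6 : normSq (2 : ℂ) = 4 := by simp; norm_num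
    rw [h6, div_le_div_iff₀ (by positivity) (by norm_num)]
    nlinarith [normSq_nonneg (1 - a)]

theorem F2_bound {a b c d : ℂ} (h : InD a b c d) : normSq (F2 a b c) ≤ normSq (1 - a) / 4 := by
  unfold F2
  by_cases h0 : 2 - a - c = 0
  · rw [h0, mul_zero, div_zero, normSq_zero]
    have := normSq_nonneg (1 - a)
    linarith
  · have hD : 0 < normSq (2 - a - c) := normSq_pos.2 h0
    have k := key_id a c
    have h1 := normSq_nonneg b
    have h2 := normSq_nonneg d
    have ha : normSq b ≤ 1 - normSq a := by have := h.1; linarith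
    have hc : normSq c ≤ 1 := by have := h.2; linarith
    have h3 : 2 * normSq b * normSq (1 - c) ≤ 2 * (1 - normSq a) * normSq (1 - c) :=
      mul_le_mul_of_nonneg_right (by linarith) (normSq_nonneg _)
    have h4 : 0 ≤ 2 * (1 - normSq c) * normSq (1 - a) :=
      mul_nonneg (by linarith) (normSq_nonneg _)
    have h5 : 2 * normSq b * normSq (1 - c) ≤ normSq (2 - a - c) := by
      have := normSq_nonneg (2 * a * c - a - c); linarith
    rw [normSq_div, normSq_mul, normSq_mul, normSq_mul, normSq_sqrt2,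
      div_le_div_iff₀ (by positivity) (by norm_num)]
    nlinarith [normSq_nonneg (1 - a)]

theorem F3_bound {a b c d : ℂ} (h : InD a b c d) : normSq (F3 a c d) ≤ normSq (1 - a) / 4 := by
  unfold F3
  by_cases h0 : 2 - a - c = 0
  · rw [h0, mul_zero, div_zero, normSq_zero]
    have := normSq_nonneg (1 - a)
    linarith
  · have hD : 0 < normSq (2 - a - c) := normSq_pos.2 h0
    have k := key_id a c
    have h1 := normSq_nonneg b
    have h2 := normSq_nonneg d
    have ha : normSq a ≤ 1 := by have := h.1; linarith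
    have hc : normSq d ≤ 1 - normSq c := by have := h.2; linarith
    have h3 : 0 ≤ 2 * (1 - normSq a) * normSq (1 - c) :=
      mul_nonneg (by linarith) (normSq_nonneg _)
    have h4 : 2 * normSq d * normSq (1 - a) ≤ 2 * (1 - normSq c) * normSq (1 - a) :=
      mul_le_mul_of_nonneg_right (by linarith) (normSq_nonneg _)
    have h5 : 2 * normSq d * normSq (1 - a) ≤ normSq (2 - a - c) := by
      have := normSq_nonneg (2 * a * c - a - c); linarith
    rw [normSq_div, normSq_mul, normSq_mul, normSq_sqrt2, map_pow,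
      div_le_div_iff₀ (by positivity) (by norm_num)]
    nlinarith [normSq_nonneg (1 - a)]

theorem F_sum {a b c d : ℂ} (h1 : normSq a + normSq b = 1) (h2 : normSq c + normSq d = 1) :
    normSq (F1 a c) + normSq (F2 a b c) + normSq (F3 a c d) + normSq (F4 a) + normSq (F5 b) = 1 := by
  have e4 : normSq (F4 a) + normSq (F5 b) = 1 - normSq (1 - a) / 4 := by
    unfold F4 F5
    rw [normSq_div, normSq_div, normSq_sqrt2]
    have h6 : normSq (2 : ℂ) = 4 := by simp; norm_num
    rw [h6]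
    have h7 : normSq b = 1 - normSq a := by linarith
    rw [h7]
    simp [normSq_apply]
    ring
  have e1 : normSq (F1 a c) + normSq (F2 a b c) + normSq (F3 a c d) = normSq (1 - a) / 4 := by
    by_cases h0 : 2 - a - c = 0
    · have h3 := (den_zero (a := a) (b := b) (c := c) (d := d) ⟨h1.le, h2.le⟩ h0).1
      unfold F1 F2 F3
      rw [h0, h3]; simp
    · have hD : normSq (2 - a - c) ≠ 0 := (normSq_pos.2 h0).ne'
      have k := key_id a c
      unfold F1 F2 F3
      rw [normSq_div, normSq_div, normSq_div]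
      simp only [normSq_mul, normSq_sqrt2, map_pow]
      have h6 : normSq (2 : ℂ) = 4 := by simp; norm_num
      rw [h6]
      have h7 : normSq b = 1 - normSq a := by linarith
      have h8 : normSq d = 1 - normSq c := by linarith
      rw [h7, h8]
      have h9 : normSq (2 * a * c - a - c) = normSq (2 - a - c) -
        (2 * (1 - normSq a) * normSq (1 - c) + 2 * (1 - normSq c) * normSq (1 - a)) := by linarith
      rw [h9]
      field_simp
      ring
  linarith

/-- the closed bi-ball as a subset of `ℂⁿ` -/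
def DD (i0 i1 i2 i3 : Fin n) : Set (Cn n) := {z | InD (z i0) (z i1) (z i2) (z i3)}

theorem cont_aux {i0 i1 i2 i3 : Fin n} {g : Cn n → ℂ} {z : Cn n} (hz : z i0 = 1) (hg : g z = 0)
    (hb : ∀ w ∈ DD i0 i1 i2 i3, normSq (g w) ≤ normSq (1 - w i0) / 4) :
    ContinuousWithinAt g (DD i0 i1 i2 i3) z := by
  unfold ContinuousWithinAt
  rw [hg, tendsto_zero_iff_norm_tendsto_zero]
  have h1 : Filter.Tendsto (fun w : Cn n => ‖1 - w i0‖ / 2) (𝓝[DD i0 i1 i2 i3] z) (𝓝 0) := by
    have h2 : Continuous fun w : Cn n => ‖1 - w i0‖ / 2 := by fun_prop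
    have h3 := (h2.tendsto z).mono_left (nhdsWithin_le_nhds (s := DD i0 i1 i2 i3))
    rw [hz] at h3
    simpa using h3
  refine squeeze_zero' (Filter.Eventually.of_forall fun w => norm_nonneg _) ?_ h1
  filter_upwards [self_mem_nhdsWithin] with w hw
  have h3 := hb w hw
  rw [normSq_eq_norm_sq, normSq_eq_norm_sq] at h3
  have h4 : ‖g w‖ ^ 2 ≤ (‖1 - w i0‖ / 2) ^ 2 := by rw [div_pow]; norm_num; linarith
  exact abs_le_of_sq_le_sq' h4 (by positivity) |>.2

theorem cont_F1 (i0 i1 i2 i3 : Fin n) :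
    ContinuousOn (fun z : Cn n => F1 (z i0) (z i2)) (DD i0 i1 i2 i3) := by
  intro z hz
  by_cases h0 : 2 - z i0 - z i2 = 0
  · have h1 := den_zero hz h0
    refine cont_aux h1.1 ?_ fun w hw => F1_bound hw
    simp [F1, h0]
  · have h2 : (2 : ℂ) * (2 - z i0 - z i2) ≠ 0 := mul_ne_zero two_ne_zero h0
    have : ContinuousAt (fun z : Cn n => F1 (z i0) (z i2)) z := by
      unfold F1
      exact ContinuousAt.div (by fun_prop) (by fun_prop) h2
    exact this.continuousWithinAt

theorem sqrt2_ne : ((Real.sqrt 2 : ℝ) : ℂ) ≠ 0 := by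
  rw [Ne, ofReal_eq_zero]
  positivity

theorem cont_F2 (i0 i1 i2 i3 : Fin n) :
    ContinuousOn (fun z : Cn n => F2 (z i0) (z i1) (z i2)) (DD i0 i1 i2 i3) := by
  intro z hz
  by_cases h0 : 2 - z i0 - z i2 = 0
  · have h1 := den_zero hz h0
    refine cont_aux h1.1 ?_ fun w hw => F2_bound hw
    simp [F2, h0]
  · have h2 : (Real.sqrt 2 : ℂ) * (2 - z i0 - z i2) ≠ 0 := mul_ne_zero sqrt2_ne h0
    have : ContinuousAt (fun z : Cn n => F2 (z i0) (z i1) (z i2)) z := by
      unfold F2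
      exact ContinuousAt.div (by fun_prop) (by fun_prop) h2
    exact this.continuousWithinAt

theorem cont_F3 (i0 i1 i2 i3 : Fin n) :
    ContinuousOn (fun z : Cn n => F3 (z i0) (z i2) (z i3)) (DD i0 i1 i2 i3) := by
  intro z hz
  by_cases h0 : 2 - z i0 - z i2 = 0
  · have h1 := den_zero hz h0
    refine cont_aux h1.1 ?_ fun w hw => F3_bound hw
    simp [F3, h0]
  · have h2 : (Real.sqrt 2 : ℂ) * (2 - z i0 - z i2) ≠ 0 := mul_ne_zero sqrt2_ne h0
    have : ContinuousAt (fun z : Cn n => F3 (z i0) (z i2) (z i3)) z := by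
      unfold F3
      exact ContinuousAt.div (by fun_prop) (by fun_prop) h2
    exact this.continuousWithinAt

/-- radii tending to `1` -/
def rad (N : ℕ) : ℝ := 1 - 1 / ((N : ℝ) + 2)

theorem rad_pos (N : ℕ) : 0 < rad N := by
  unfold rad
  have h : (0 : ℝ) ≤ N := Nat.cast_nonneg N
  have : 1 / ((N : ℝ) + 2) < 1 := by rw [div_lt_one (by linarith)]; linarith
  linarith

theorem rad_lt (N : ℕ) : rad N < 1 := by
  unfold rad
  have h : (0 : ℝ) ≤ N := Nat.cast_nonneg N
  have : 0 < 1 / ((N : ℝ) + 2) := by positivity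
  linarith

theorem rad_tendsto : Filter.Tendsto rad Filter.atTop (𝓝 1) := by
  unfold rad
  have h1 : Filter.Tendsto (fun N : ℕ => 1 / ((N : ℝ) + 2)) Filter.atTop (𝓝 0) := by
    have h2 := tendsto_one_div_add_atTop_nhds_zero_nat (𝕜 := ℝ)
    have h3 := h2.comp (Filter.tendsto_add_atTop_nat 1)
    refine h3.congr fun N => ?_
    simp only [Function.comp]
    push_cast
    ring_nf
  simpa using tendsto_const_nhds.sub h1

theorem inD_smul {a b c d : ℂ} (h : InD a b c d) {r : ℝ} (h0 : 0 ≤ r) (h1 : r ≤ 1) :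
    InD (r * a) (r * b) (r * c) (r * d) := by
  obtain ⟨h2, h3⟩ := h
  have hr : r * r ≤ 1 := by nlinarith
  have hr0 : 0 ≤ r * r := by positivity
  constructor
  · rw [normSq_mul, normSq_mul, normSq_ofReal, ← mul_add]
    nlinarith [normSq_nonneg a, normSq_nonneg b]
  · rw [normSq_mul, normSq_mul, normSq_ofReal, ← mul_add]
    nlinarith [normSq_nonneg c, normSq_nonneg d]

theorem F_weakCR {k : ℕ∞} (hk : 1 ≤ k) {d : ℕ} {M : Set (Cn n)} (i0 i1 i2 i3 : Fin n)
    (hM : M ⊆ DD i0 i1 i2 i3) {g : Cn n → ℂ} (hg : ContinuousOn g (DD i0 i1 i2 i3))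
    (hb : ∀ w ∈ DD i0 i1 i2 i3, normSq (g w) ≤ normSq (1 - w i0) / 4)
    (hd : ∀ r : ℝ, 0 < r → ∀ z : Cn n, (2 - r * z i0 - r * z i2 ≠ 0) →
      ContDiffAt ℂ 1 (fun w : Cn n => g ((r : ℂ) • w)) z) : IsWeakCR k d M g := by
  refine weakCR_of_approx hk (fun N z => g ((rad N : ℂ) • z)) 1 ?_ ?_ ?_
  · intro N
    refine ⟨{z | ‖z i0‖ < (rad N)⁻¹ ∧ ‖z i2‖ < (rad N)⁻¹}, ?_, ?_, ?_⟩
    · exact (isOpen_lt (continuous_apply i0).norm continuous_const).inter
        (isOpen_lt (continuous_apply i2).norm continuous_const)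
    · intro z hz
      have h1 := hM hz
      have h2 : 1 < (rad N)⁻¹ := (one_lt_inv₀ (rad_pos N)).2 (rad_lt N)
      have h3 : ∀ a b : ℂ, normSq a + normSq b ≤ 1 → ‖a‖ ≤ 1 := by
        intro a b hab
        have h4 := normSq_nonneg b
        have h5 : ‖a‖ ^ 2 ≤ 1 := by rw [← normSq_eq_norm_sq]; linarith
        nlinarith [norm_nonneg a]
      exact ⟨(h3 _ _ h1.1).trans_lt h2, (h3 _ _ h1.2).trans_lt h2⟩
    · intro z hz
      refine (hd (rad N) (rad_pos N) z ?_).contDiffWithinAt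
      intro h0
      have h1 : ∀ a : ℂ, ‖a‖ < (rad N)⁻¹ → ((rad N : ℂ) * a).re < 1 := by
        intro a ha
        refine (re_le_norm _).trans_lt ?_
        rw [norm_mul, norm_real, Real.norm_eq_abs, abs_of_pos (rad_pos N)]
        calc rad N * ‖a‖ < rad N * (rad N)⁻¹ := mul_lt_mul_of_pos_left ha (rad_pos N)
          _ = 1 := mul_inv_cancel₀ (rad_pos N).ne'
      have h2 := h1 _ hz.1
      have h3 := h1 _ hz.2
      have h4 := congrArg re h0
      rw [sub_re, sub_re, zero_re] at h4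
      norm_num at h4
      rw [re_ofReal_mul] at h2 h3
      linarith
  · intro z hz
    have h1 : Filter.Tendsto (fun N => (rad N : ℂ) • z) Filter.atTop (𝓝[DD i0 i1 i2 i3] z) := by
      rw [tendsto_nhdsWithin_iff]
      constructor
      · have h2 : Filter.Tendsto (fun N => (rad N : ℂ)) Filter.atTop (𝓝 1) := by
          have := (continuous_ofReal.tendsto 1).comp rad_tendsto
          simpa [Function.comp_def] using this
        simpa using h2.smul_const z
      · refine Filter.Eventually.of_forall fun N => ?_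
        exact inD_smul (hM hz) (rad_pos N).le (rad_lt N).le
    exact (hg z (hM hz)).tendsto.comp h1
  · intro N z hz
    have h1 : (rad N : ℂ) • z ∈ DD i0 i1 i2 i3 := inD_smul (hM hz) (rad_pos N).le (rad_lt N).le
    have h2 := hb _ h1
    have h3 : ‖((rad N : ℂ) • z) i0‖ ≤ 1 := by
      have h4 := normSq_nonneg (((rad N : ℂ) • z) i1)
      have h5 : ‖((rad N : ℂ) • z) i0‖ ^ 2 ≤ 1 := by
        rw [← normSq_eq_norm_sq]; have := h1.1; linarith
      nlinarith [norm_nonneg (((rad N : ℂ) • z) i0)]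
    have h4 : ‖1 - ((rad N : ℂ) • z) i0‖ ≤ 2 := by
      refine (norm_sub_le _ _).trans ?_
      rw [norm_one]; linarith
    rw [normSq_eq_norm_sq, normSq_eq_norm_sq] at h2
    have h5 : ‖g ((rad N : ℂ) • z)‖ ^ 2 ≤ 1 := by
      nlinarith [norm_nonneg (1 - ((rad N : ℂ) • z) i0)]
    nlinarith [norm_nonneg (g ((rad N : ℂ) • z))]

theorem F1_weakCR {k : ℕ∞} (hk : 1 ≤ k) {d : ℕ} {M : Set (Cn n)} (i0 i1 i2 i3 : Fin n)
    (hM : M ⊆ DD i0 i1 i2 i3) : IsWeakCR k d M (fun z => F1 (z i0) (z i2)) := by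
  refine F_weakCR hk i0 i1 i2 i3 hM (cont_F1 i0 i1 i2 i3) (fun w hw => F1_bound hw) ?_
  intro r hr z hz
  unfold F1
  simp only [Pi.smul_apply, smul_eq_mul]
  refine ContDiffAt.div ?_ ?_ (mul_ne_zero two_ne_zero hz) <;> fun_prop

theorem F2_weakCR {k : ℕ∞} (hk : 1 ≤ k) {d : ℕ} {M : Set (Cn n)} (i0 i1 i2 i3 : Fin n)
    (hM : M ⊆ DD i0 i1 i2 i3) : IsWeakCR k d M (fun z => F2 (z i0) (z i1) (z i2)) := by
  refine F_weakCR hk i0 i1 i2 i3 hM (cont_F2 i0 i1 i2 i3) (fun w hw => F2_bound hw) ?_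
  intro r hr z hz
  unfold F2
  simp only [Pi.smul_apply, smul_eq_mul]
  refine ContDiffAt.div ?_ ?_ (mul_ne_zero sqrt2_ne hz) <;> fun_prop

theorem F3_weakCR {k : ℕ∞} (hk : 1 ≤ k) {d : ℕ} {M : Set (Cn n)} (i0 i1 i2 i3 : Fin n)
    (hM : M ⊆ DD i0 i1 i2 i3) : IsWeakCR k d M (fun z => F3 (z i0) (z i2) (z i3)) := by
  refine F_weakCR hk i0 i1 i2 i3 hM (cont_F3 i0 i1 i2 i3) (fun w hw => F3_bound hw) ?_
  intro r hr z hz
  unfold F3
  simp only [Pi.smul_apply, smul_eq_mul]
  refine ContDiffAt.div ?_ ?_ (mul_ne_zero sqrt2_ne hz) <;> fun_prop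

theorem poly_weakCR {k : ℕ∞} (hk : 1 ≤ k) {d : ℕ} {M : Set (Cn n)} {g : Cn n → ℂ}
    (hg : ContDiff ℂ 1 g) (C : ℝ) (hC : ∀ z ∈ M, ‖g z‖ ≤ C) : IsWeakCR k d M g :=
  weakCR_of_approx hk (fun _ => g) C (fun _ => ⟨Set.univ, isOpen_univ, Set.subset_univ _, hg.contDiffOn⟩)
    (fun _ _ => tendsto_const_nhds) (fun _ z hz => hC z hz)

end Pool.Agent.W_MP_c8d476_an
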