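import Mathlib

/-!
# CR submanifolds of `ℂⁿ`, the Levi-cone condition, CR maps, Hölder regularity

Definitions used in the statement of `MP_c8d476_an`.
-/

open scoped Topology ContDiff
open MeasureTheory Complex

noncomputable section

namespace Pool.Agent.W_MP_c8d476_an

/-- `ℂⁿ`. -/
abbrev Cn (n : ℕ) : Type := Fin n → ℂ

/-- `ψ : U → M` is a local `C^k` parametrisation of `M ⊆ ℂⁿ` by an open set `U ⊆ ℝᵈ`: an injective
immersion of class `C^k` which maps open subsets of `U` to relatively open subsets of `M`. -/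
def IsLocalParam (k : ℕ∞) {n d : ℕ} (M : Set (Cn n)) (U : Set (Fin d → ℝ))
    (ψ : (Fin d → ℝ) → Cn n) : Prop :=
  IsOpen U ∧ ContDiffOn ℝ k ψ U ∧ (∀ x ∈ U, Function.Injective (fderiv ℝ ψ x)) ∧ Set.InjOn ψ U ∧
    ∀ V ⊆ U, IsOpen V → ∃ W : Set (Cn n), IsOpen W ∧ ψ '' V = M ∩ W

/-- `M` is an embedded real submanifold of `ℂⁿ` of class `C^k` and real dimension `d`. -/
def IsSubmanifold (k : ℕ∞) {n : ℕ} (d : ℕ) (M : Set (Cn n)) : Prop :=
  ∀ p ∈ M, ∃ (U : Set (Fin d → ℝ)) (ψ : (Fin d → ℝ) → Cn n), IsLocalParam k M U ψ ∧ p ∈ ψ '' U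

/-- The tangent space `T_p M`: the span of the velocities at `p` of curves in `M` through `p`. -/
def tangentSpace {n : ℕ} (M : Set (Cn n)) (p : Cn n) : Submodule ℝ (Cn n) :=
  Submodule.span ℝ {v | ∃ γ : ℝ → Cn n, γ 0 = p ∧ HasDerivAt γ v 0 ∧ ∀ᶠ t in 𝓝 0, γ t ∈ M}

/-- The complex tangent space `T^c_p M = T_p M ∩ i T_p M`. -/
def complexTangent {n : ℕ} (M : Set (Cn n)) (p : Cn n) : Submodule ℂ (Cn n) where
  carrier := {v | v ∈ tangentSpace M p ∧ I • v ∈ tangentSpace M p}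
  add_mem' := by
    rintro a b ⟨ha, ha'⟩ ⟨hb, hb'⟩
    refine ⟨add_mem ha hb, ?_⟩
    rw [smul_add]
    exact add_mem ha' hb'
  zero_mem' := by simp
  smul_mem' := by
    rintro c v ⟨hv, hv'⟩
    have h1 : c • v = c.re • v + c.im • (I • v) := by
      ext j
      simp only [Pi.smul_apply, Pi.add_apply, smul_eq_mul, real_smul]
      conv_lhs => rw [← re_add_im c]
      ring
    have h2 : I • c • v = c.re • (I • v) - c.im • v := by
      rw [h1]
      ext j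
      simp only [Pi.smul_apply, Pi.add_apply, Pi.sub_apply, smul_eq_mul, real_smul]
      linear_combination (c.im * v j) * I_mul_I
    refine ⟨?_, ?_⟩
    · rw [h1]
      exact add_mem (Submodule.smul_mem _ _ hv) (Submodule.smul_mem _ _ hv')
    · rw [h2]
      exact sub_mem (Submodule.smul_mem _ _ hv') (Submodule.smul_mem _ _ hv)

/-- `M` is a CR submanifold of `ℂⁿ` of class `C^k`, real dimension `d` and CR dimension `m`. -/
def IsCRSubmanifold (k : ℕ∞) {n : ℕ} (d m : ℕ) (M : Set (Cn n)) : Prop :=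
  IsSubmanifold k d M ∧ ∀ p ∈ M, Module.finrank ℂ (complexTangent M p) = m

/-- `N_p M = T_p M / T^c_p M`. -/
abbrev NormalSpace {n : ℕ} (M : Set (Cn n)) (p : Cn n) : Type :=
  tangentSpace M p ⧸ ((complexTangent M p).restrictScalars ℝ).submoduleOf (tangentSpace M p)

/-- `ξ ∈ N_p M` is the value `L_p(v,v)` of the Levi form of `M` (up to a fixed nonzero real factor,
which is immaterial for the cone condition below): the class of the Lie bracket `[V, iV](p)` for a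
`C¹` vector field `V` which extends `v` and is a section of `T^c M` along `M` near `p`. -/
def IsLeviValue {n : ℕ} (M : Set (Cn n)) (p v : Cn n) (ξ : NormalSpace M p) : Prop :=
  ∃ (V : Cn n → Cn n) (w : tangentSpace M p), ContDiffAt ℝ 1 V p ∧ V p = v ∧
    (∀ᶠ z in 𝓝[M] p, V z ∈ complexTangent M z) ∧
    (w : Cn n) = VectorField.lieBracket ℝ V (fun z => I • V z) p ∧ Submodule.Quotient.mk w = ξ

/-- The standing Levi condition: at every `p ∈ M` there is a closed convex cone `Γ ⊆ N_p M`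
containing no line, such that `L_p(v,v)` lies in its interior for all nonzero `v ∈ T^c_p M`, and the
convex hull of `{L_p(v,v) : v ≠ 0}` has nonempty interior in `N_p M`. -/
def LeviCone {n : ℕ} (M : Set (Cn n)) : Prop :=
  ∀ p ∈ M,
    (∃ Γ : Set (NormalSpace M p), IsClosed Γ ∧ Convex ℝ Γ ∧ (∀ a : ℝ, 0 ≤ a → ∀ x ∈ Γ, a • x ∈ Γ) ∧
      (¬ ∃ x d : NormalSpace M p, d ≠ 0 ∧ ∀ t : ℝ, x + t • d ∈ Γ) ∧
      ∀ v ∈ complexTangent M p, v ≠ 0 →
        (∃ ξ, IsLeviValue M p v ξ) ∧ ∀ ξ, IsLeviValue M p v ξ → ξ ∈ interior Γ) ∧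
    (interior (convexHull ℝ
      {ξ : NormalSpace M p | ∃ v ∈ complexTangent M p, v ≠ 0 ∧ IsLeviValue M p v ξ})).Nonempty

/-- Divergence of a vector field on `ℝᵈ`. -/
def divg {d : ℕ} (A : (Fin d → ℝ) → (Fin d → ℝ)) (x : Fin d → ℝ) : ℝ :=
  ∑ i, fderiv ℝ A x (Pi.single i 1) i

/-- `g` satisfies the tangential Cauchy-Riemann equations on `M` in the sense of distributions:
`∫ (g ∘ ψ) · div(A + iB) = 0` for every local parametrisation `ψ` and every compactly supported `C¹`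
vector field `A + iB` on its domain which is of type `(0,1)`, i.e. `dψ(B) = i dψ(A)`. -/
def IsWeakCR (k : ℕ∞) {n : ℕ} (d : ℕ) (M : Set (Cn n)) (g : Cn n → ℂ) : Prop :=
  ∀ (U : Set (Fin d → ℝ)) (ψ : (Fin d → ℝ) → Cn n), IsLocalParam k M U ψ →
    ∀ A B : (Fin d → ℝ) → (Fin d → ℝ), ContDiff ℝ 1 A → ContDiff ℝ 1 B →
      HasCompactSupport A → HasCompactSupport B → tsupport A ⊆ U → tsupport B ⊆ U →
      (∀ x ∈ U, fderiv ℝ ψ x (B x) = I • fderiv ℝ ψ x (A x)) →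
      ∫ x, g (ψ x) * ((divg A x : ℂ) + I * (divg B x : ℂ)) = 0

/-- `g` is of Hölder class `C^s` (`s = m + α`, `m ∈ ℕ`, `0 < α ≤ 1`) on the open set `U`. -/
def HolderOn (s : ℝ) {d n : ℕ} (g : (Fin d → ℝ) → Cn n) (U : Set (Fin d → ℝ)) : Prop :=
  ∃ (m : ℕ) (α : ℝ), 0 < α ∧ α ≤ 1 ∧ s = m + α ∧ ContDiffOn ℝ m g U ∧
    ∀ x ∈ U, ∃ C : ℝ, ∃ W ∈ 𝓝 x, ∀ y ∈ W, ∀ z ∈ W,
      ‖iteratedFDeriv ℝ m g y - iteratedFDeriv ℝ m g z‖ ≤ C * ‖y - z‖ ^ α

/-- `f ∈ C^{k-1/2-0}` on the `d`-dimensional `C^k` submanifold `M` (`f ∈ C^∞` if `k = ∞`), tested in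
all local parametrisations of `M`. -/
def RegMinus (k : ℕ∞) {n : ℕ} (d : ℕ) (M : Set (Cn n)) (f : Cn n → Cn n) : Prop :=
  ∀ (U : Set (Fin d → ℝ)) (ψ : (Fin d → ℝ) → Cn n), IsLocalParam k M U ψ →
    (k = ⊤ → ContDiffOn ℝ ∞ (fun x => f (ψ x)) U) ∧
    ∀ m : ℕ, k = m → ∀ ε : ℝ, 0 < ε → ε < m - 1 / 2 →
      HolderOn (m - 1 / 2 - ε) (fun x => f (ψ x)) U

/-- The regularity assertion of Q1 in class `C^k`, for compact `M₁`, `M₂` of equal CR dimension `m`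
whose real dimensions `d₁`, `d₂` compare as `o` (`lt`, `eq` or `gt`). -/
def RegularityAssertion (k : ℕ∞) (o : Ordering) : Prop :=
  ∀ (n m d₁ d₂ : ℕ) (M₁ M₂ : Set (Cn n)) (f : Cn n → Cn n), compare d₁ d₂ = o →
    IsCompact M₁ → IsCompact M₂ → IsCRSubmanifold k d₁ m M₁ → IsCRSubmanifold k d₂ m M₂ →
    LeviCone M₁ → LeviCone M₂ → Set.MapsTo f M₁ M₂ → ContinuousOn f M₁ →
    (∀ j, IsWeakCR k d₁ M₁ (fun z => f z j)) → RegMinus k d₁ M₁ f

end Pool.Agent.W_MP_c8d476_an
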