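import Pool.Agent.W_MP_c8d476_an.Components

open scoped Topology ContDiff ComplexConjugate
open MeasureTheory Complex

noncomputable section

namespace Pool.Agent.W_MP_c8d476_an


variable {n c : ℕ}

theorem F1_right_one (a : ℂ) : F1 a 1 = (a - 1) / 2 := by
  unfold F1
  by_cases h : a = 1
  · rw [h]; simp
  · have h1 : 2 - a - 1 ≠ 0 := by
      intro h2; apply h; linear_combination -h2
    have h2 : (1 : ℂ) - a ≠ 0 := by
      intro h3; apply h; linear_combination -h3
    rw [div_eq_div_iff (mul_ne_zero two_ne_zero h1) two_ne_zero]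
    ring

theorem F1_left_one (c : ℂ) : F1 1 c = 0 := by
  unfold F1; simp

theorem F1_conj {a : ℂ} (ha : normSq a = 1) : F1 a (conj a) = (1 - a) / 2 := by
  unfold F1
  have h0 : a * conj a = 1 := by rw [mul_conj, ha]; simp
  by_cases h : 2 - a - conj a = 0
  · have h2 := (den_zero (a := a) (b := 0) (c := conj a) (d := 0)
      ⟨by simp [ha], by simp [normSq_conj, ha]⟩ h).1
    rw [h2]; simp
  · rw [div_eq_div_iff (mul_ne_zero two_ne_zero h) two_ne_zero]
    linear_combination (1 - a) * 4 * h0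

/-- the test curves -/
def crv (p : Cn n) (i0 i2 : Fin n) (a c : ℂ) : Cn n := Function.update (Function.update p i0 a) i2 c

theorem crv_hasDerivAt (p : Cn n) {i0 i2 : Fin n} {α δ : ℝ → ℂ} {a' c' : ℂ}
    (hα : HasDerivAt α a' 0) (hδ : HasDerivAt δ c' 0) :
    HasDerivAt (fun t => crv p i0 i2 (α t) (δ t)) (crv (0 : Cn n) i0 i2 a' c') 0 := by
  rw [hasDerivAt_pi]
  intro j
  unfold crv
  by_cases h2 : j = i2
  · subst h2; simpa using hδ
  · by_cases h0 : j = i0
    · subst h0
      simpa [h2] using hα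
    · simpa [h2, h0] using hasDerivAt_const (0 : ℝ) (p j)

theorem not_regMinus {k : ℕ∞} (hk : 2 ≤ k) {d : ℕ} {M : Set (Cn n)} {f : Cn n → Cn n}
    {i0 i2 j1 : Fin n} (hne : i0 ≠ i2) {p : Cn n}
    (hcrv : ∀ a c : ℂ, normSq a = 1 → normSq c = 1 → crv p i0 i2 a c ∈ M)
    (hp0 : p i0 = 1) (hp2 : p i2 = 1)
    (hf : ∀ z, f z j1 = F1 (z i0) (z i2))
    (hparam : ∃ (U : Set (Fin d → ℝ)) (ψ : (Fin d → ℝ) → Cn n) (π : Cn n →L[ℝ] (Fin d → ℝ)),
      IsLocalParam k M U ψ ∧ p ∈ ψ '' U ∧ ∀ x ∈ U, π (ψ x) = x) : ¬ RegMinus k d M f := by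
  intro hreg
  obtain ⟨U, ψ, π, hψ, ⟨x₀, hx₀, hpx₀⟩, hπ⟩ := hparam
  have hU := hψ.1
  -- the map is C¹ in the parametrisation
  have hC1 : ContDiffOn ℝ 1 (fun x => f (ψ x)) U := by
    obtain ⟨h1, h2⟩ := hreg U ψ hψ
    rcases eq_or_ne k ⊤ with hk' | hk'
    · exact (h1 hk').of_le (by exact_mod_cast le_top)
    · obtain ⟨m, rfl⟩ := ENat.ne_top_iff_exists.1 hk'
      have hm : 2 ≤ m := by exact_mod_cast hk
      have hm' : (2 : ℝ) ≤ m := by exact_mod_cast hm
      obtain ⟨m', α, hα0, hα1, hs, hc, -⟩ := h2 m rfl (1 / 4) (by norm_num) (by linarith)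
      have h3 : (0 : ℝ) < m' := by linarith
      have h4 : 1 ≤ m' := by exact_mod_cast h3
      exact hc.of_le (by exact_mod_cast h4)
  have hdiff : DifferentiableAt ℝ (fun x => f (ψ x) j1) x₀ := by
    have h1 := (hC1.contDiffAt (hU.mem_nhds hx₀)).differentiableAt one_ne_zero
    exact (differentiableAt_pi.1 h1) j1
  set D := fderiv ℝ (fun x => f (ψ x) j1) x₀ with hD
  obtain ⟨W, hWo, hW⟩ := hψ.2.2.2.2 U le_rfl hU
  have hpW : p ∈ W := by
    have : p ∈ M ∩ W := by rw [← hW]; exact ⟨x₀, hx₀, hpx₀⟩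
    exact this.2
  have hcp : crv p i0 i2 1 1 = p := by
    unfold crv
    ext j
    by_cases h2 : j = i2
    · subst h2; simp [hp2]
    · by_cases h0 : j = i0
      · subst h0; simp [h2, hp0]
      · simp [h2, h0]
  -- chain rule along the curves
  have chain : ∀ (α δ : ℝ → ℂ) (a' c' : ℂ), HasDerivAt α a' 0 → HasDerivAt δ c' 0 →
      α 0 = 1 → δ 0 = 1 → (∀ t, normSq (α t) = 1) → (∀ t, normSq (δ t) = 1) →
      HasDerivAt (fun t => F1 (α t) (δ t)) (D (π (crv (0 : Cn n) i0 i2 a' c'))) 0 := by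
    intro α δ a' c' hα hδ hα0 hδ0 hα1 hδ1
    have h1 := crv_hasDerivAt p (i0 := i0) (i2 := i2) hα hδ
    have h2 : HasDerivAt (fun t => π (crv p i0 i2 (α t) (δ t))) (π (crv (0 : Cn n) i0 i2 a' c')) 0 :=
      π.hasFDerivAt.comp_hasDerivAt (0 : ℝ) h1
    have h0 : π (crv p i0 i2 (α 0) (δ 0)) = x₀ := by
      rw [hα0, hδ0, hcp, ← hpx₀, hπ x₀ hx₀]
    have h3 : HasFDerivAt (fun x => f (ψ x) j1) D (π (crv p i0 i2 (α 0) (δ 0))) := by
      rw [h0]; exact hdiff.hasFDerivAt
    have h4 := h3.comp_hasDerivAt (0 : ℝ) h2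
    refine h4.congr_of_eventuallyEq ?_
    have h5 : ∀ᶠ t in 𝓝 (0 : ℝ), crv p i0 i2 (α t) (δ t) ∈ W := by
      have h6 := h1.continuousAt
      apply h6.eventually
      beta_reduce
      rw [hα0, hδ0, hcp]
      exact hWo.mem_nhds hpW
    filter_upwards [h5] with t ht
    have h6 : crv p i0 i2 (α t) (δ t) ∈ ψ '' U := by
      rw [hW]; exact ⟨hcrv _ _ (hα1 t) (hδ1 t), ht⟩
    obtain ⟨y, hy, hy'⟩ := h6
    have h7 : ψ (π (crv p i0 i2 (α t) (δ t))) = crv p i0 i2 (α t) (δ t) := by
      rw [← hy', hπ y hy]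
    simp only [Function.comp]
    rw [h7, hf]
    simp [crv, hne]
  -- the three curves
  have hexp : HasDerivAt (fun t : ℝ => cexp (t * I)) I 0 := by
    have h1 : HasDerivAt (fun t : ℝ => (t : ℂ) * I) I 0 := by
      have := (hasDerivAt_id (0 : ℝ)).ofReal_comp.mul_const I
      simpa using this
    have := h1.cexp
    simpa using this
  have hexp' : HasDerivAt (fun t : ℝ => conj (cexp (t * I))) (-I) 0 := by
    have := hexp.star
    simpa using this
  have hn : ∀ t : ℝ, normSq (cexp (t * I)) = 1 := by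
    intro t
    rw [normSq_eq_norm_sq, norm_exp_ofReal_mul_I]; norm_num
  have hn' : ∀ t : ℝ, normSq (conj (cexp (t * I))) = 1 := by
    intro t
    rw [normSq_conj, hn]
  have c1 := chain (fun t => cexp (t * I)) (fun _ => 1) I 0 hexp (hasDerivAt_const _ _)
    (by simp) rfl hn (by simp)
  have c2 := chain (fun _ => 1) (fun t => cexp (t * I)) 0 I (hasDerivAt_const _ _) hexp
    rfl (by simp) (by simp) hn
  have c3 := chain (fun t => cexp (t * I)) (fun t => conj (cexp (t * I))) I (-I) hexp hexp'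
    (by simp) (by simp) hn hn'
  simp only [F1_right_one] at c1
  simp only [F1_left_one] at c2
  have e3 : (fun t : ℝ => F1 (cexp (t * I)) (conj (cexp (t * I)))) = fun t : ℝ => (1 - cexp (t * I)) / 2 := by
    ext t; exact F1_conj (hn t)
  rw [e3] at c3
  have d1 : D (π (crv (0 : Cn n) i0 i2 I 0)) = I / 2 :=
    c1.unique ((hexp.sub_const 1).div_const 2)
  have d2 : D (π (crv (0 : Cn n) i0 i2 0 I)) = 0 := c2.unique (hasDerivAt_const _ _)
  have d3 : D (π (crv (0 : Cn n) i0 i2 I (-I))) = -I / 2 :=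
    c3.unique ((hexp.const_sub 1).div_const 2)
  have hlin : crv (0 : Cn n) i0 i2 I (-I) = crv (0 : Cn n) i0 i2 I 0 - crv (0 : Cn n) i0 i2 0 I := by
    unfold crv
    ext j
    by_cases h2 : j = i2
    · subst h2; simp
    · by_cases h0 : j = i0
      · subst h0; simp [h2]
      · simp [h2, h0]
  rw [hlin, map_sub, map_sub, d1, d2] at d3
  have h9 := congrArg im d3
  norm_num at h9


theorem mem_sphereProd_iff {β : Fin n → Option (Fin c)} {z : Cn n} :
    z ∈ sphereProd β ↔ (∀ b, nsq β b z = 1) ∧ ∀ j, β j = none → z j = 0 := by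
  constructor
  · rintro ⟨h1, h2⟩
    refine ⟨fun b => ?_, h2⟩
    have := h1 b
    rw [blk_self] at this
    exact_mod_cast this
  · rintro ⟨h1, h2⟩
    refine ⟨fun b => ?_, h2⟩
    rw [blk_self, h1 b, ofReal_one]

theorem norm_le_one {β : Fin n → Option (Fin c)} {z : Cn n} (hz : z ∈ sphereProd β) (j : Fin n) :
    ‖z j‖ ≤ 1 := by
  obtain ⟨h1, h2⟩ := mem_sphereProd_iff.1 hz
  cases h : β j with
  | none => rw [h2 j h]; simp
  | some b =>
    have h3 : (if β j = some b then normSq (z j) else 0) ≤ nsq β b z := by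
      unfold nsq
      refine Finset.single_le_sum (f := fun j => if β j = some b then normSq (z j) else 0)
        (fun i _ => ?_) (Finset.mem_univ j)
      split_ifs
      · exact normSq_nonneg _
      · exact le_rfl
    rw [if_pos h, h1 b, normSq_eq_norm_sq] at h3
    nlinarith [norm_nonneg (z j)]

theorem isCompact_sphereProd (β : Fin n → Option (Fin c)) : IsCompact (sphereProd β) := by
  apply Metric.isCompact_of_isClosed_isBounded
  · have h : sphereProd β = rho β ⁻¹' {0} := by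
      ext z
      exact (rho_eq_zero_iff β z).symm
    rw [h]
    exact isClosed_singleton.preimage (contDiff_rho β (k := 0)).continuous
  · rw [isBounded_iff_forall_norm_le]
    exact ⟨1, fun z hz => (pi_norm_le_iff_of_nonneg zero_le_one).2 fun j => norm_le_one hz j⟩

/-! ### dimensions equal: `S³ × S³ × S⁹ ⊂ ℂ⁹` -/

def beta9 : Fin 9 → Option (Fin 3) := ![some 0, some 0, some 1, some 1, some 2, some 2, some 2, some 2, some 2]

def f9 (z : Cn 9) : Cn 9 := ![z 0, z 1, z 2, z 3, F1 (z 0) (z 2), F2 (z 0) (z 1) (z 2),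
  F3 (z 0) (z 2) (z 3), F4 (z 0), F5 (z 1)]

theorem nsq9_0 (z : Cn 9) : nsq beta9 0 z = normSq (z 0) + normSq (z 1) := by
  simp [nsq, Fin.sum_univ_succ, beta9]

theorem nsq9_1 (z : Cn 9) : nsq beta9 1 z = normSq (z 2) + normSq (z 3) := by
  simp [nsq, Fin.sum_univ_succ, beta9]

theorem nsq9_2 (z : Cn 9) : nsq beta9 2 z = normSq (z 4) + normSq (z 5) + normSq (z 6) +
    normSq (z 7) + normSq (z 8) := by
  simp [nsq, Fin.sum_univ_succ, beta9]; ring

/-! ### `dim M₁ > dim M₂`: `S³ × S³ × S⁵ → S⁹ × {0}` in `ℂ⁷` -/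

def beta7 : Fin 7 → Option (Fin 3) := ![some 0, some 0, some 1, some 1, some 2, some 2, some 2]
def beta7' : Fin 7 → Option (Fin 1) := ![some 0, some 0, some 0, some 0, some 0, none, none]

def f7 (z : Cn 7) : Cn 7 := ![F1 (z 0) (z 2), F2 (z 0) (z 1) (z 2),
  F3 (z 0) (z 2) (z 3), F4 (z 0), F5 (z 1), 0, 0]

theorem nsq7_0 (z : Cn 7) : nsq beta7 0 z = normSq (z 0) + normSq (z 1) := by
  simp [nsq, Fin.sum_univ_succ, beta7]

theorem nsq7_1 (z : Cn 7) : nsq beta7 1 z = normSq (z 2) + normSq (z 3) := by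
  simp [nsq, Fin.sum_univ_succ, beta7]

theorem nsq7_2 (z : Cn 7) : nsq beta7 2 z = normSq (z 4) + normSq (z 5) + normSq (z 6) := by
  simp [nsq, Fin.sum_univ_succ, beta7]; ring

theorem nsq7'_0 (z : Cn 7) : nsq beta7' 0 z = normSq (z 0) + normSq (z 1) + normSq (z 2) +
    normSq (z 3) + normSq (z 4) := by
  simp [nsq, Fin.sum_univ_succ, beta7']; ring

/-! ### `dim M₁ < dim M₂`: `S³ × S³ × S¹¹ × {0} → S⁹ × S³ × S³ × S³` in `ℂ¹¹` -/

def beta11 : Fin 11 → Option (Fin 3) := ![some 0, some 0, some 1, some 1, some 2, some 2, some 2,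
  some 2, some 2, some 2, none]
def beta11' : Fin 11 → Option (Fin 4) := ![some 0, some 0, some 0, some 0, some 0, some 1, some 1,
  some 2, some 2, some 3, some 3]

def f11 (z : Cn 11) : Cn 11 := ![F1 (z 0) (z 2), F2 (z 0) (z 1) (z 2),
  F3 (z 0) (z 2) (z 3), F4 (z 0), F5 (z 1), z 0, z 1, z 2, z 3, 1, 0]

theorem nsq11_0 (z : Cn 11) : nsq beta11 0 z = normSq (z 0) + normSq (z 1) := by
  simp [nsq, Fin.sum_univ_succ, beta11]

theorem nsq11_1 (z : Cn 11) : nsq beta11 1 z = normSq (z 2) + normSq (z 3) := by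
  simp [nsq, Fin.sum_univ_succ, beta11]

theorem nsq11_2 (z : Cn 11) : nsq beta11 2 z = normSq (z 4) + normSq (z 5) + normSq (z 6) +
    normSq (z 7) + normSq (z 8) + normSq (z 9) := by
  simp [nsq, Fin.sum_univ_succ, beta11]; ring

theorem nsq11'_0 (z : Cn 11) : nsq beta11' 0 z = normSq (z 0) + normSq (z 1) + normSq (z 2) +
    normSq (z 3) + normSq (z 4) := by
  simp [nsq, Fin.sum_univ_succ, beta11']; ring

theorem nsq11'_1 (z : Cn 11) : nsq beta11' 1 z = normSq (z 5) + normSq (z 6) := by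
  simp [nsq, Fin.sum_univ_succ, beta11']

theorem nsq11'_2 (z : Cn 11) : nsq beta11' 2 z = normSq (z 7) + normSq (z 8) := by
  simp [nsq, Fin.sum_univ_succ, beta11']

theorem nsq11'_3 (z : Cn 11) : nsq beta11' 3 z = normSq (z 9) + normSq (z 10) := by
  simp [nsq, Fin.sum_univ_succ, beta11']

/-- a bundle of facts about the components, valid for all three examples -/
theorem comp_facts {k : ℕ∞} (hk : 1 ≤ k) {d : ℕ} {β : Fin n → Option (Fin c)} (i0 i1 i2 i3 : Fin n)
    (hD : ∀ z ∈ sphereProd β, normSq (z i0) + normSq (z i1) = 1 ∧ normSq (z i2) + normSq (z i3) = 1)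
    (g : Cn n → ℂ)
    (hg : (∃ i, g = fun z => z i) ∨ (∃ a, g = fun _ => a) ∨ (g = fun z => F1 (z i0) (z i2)) ∨
      (g = fun z => F2 (z i0) (z i1) (z i2)) ∨ (g = fun z => F3 (z i0) (z i2) (z i3)) ∨
      (g = fun z => F4 (z i0)) ∨ (g = fun z => F5 (z i1))) :
    ContinuousOn g (sphereProd β) ∧ IsWeakCR k d (sphereProd β) g := by
  have hM : sphereProd β ⊆ DD i0 i1 i2 i3 := fun z hz => ⟨(hD z hz).1.le, (hD z hz).2.le⟩
  rcases hg with ⟨i, rfl⟩ | ⟨a, rfl⟩ | rfl | rfl | rfl | rfl | rfl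
  · exact ⟨(continuous_apply i).continuousOn,
      poly_weakCR hk (contDiff_apply ℂ ℂ i) 1 fun z hz => norm_le_one hz i⟩
  · exact ⟨continuousOn_const, poly_weakCR hk contDiff_const ‖a‖ fun z _ => le_rfl⟩
  · exact ⟨(cont_F1 i0 i1 i2 i3).mono hM, F1_weakCR hk i0 i1 i2 i3 hM⟩
  · exact ⟨(cont_F2 i0 i1 i2 i3).mono hM, F2_weakCR hk i0 i1 i2 i3 hM⟩
  · exact ⟨(cont_F3 i0 i1 i2 i3).mono hM, F3_weakCR hk i0 i1 i2 i3 hM⟩
  · refine ⟨?_, poly_weakCR hk ?_ 1 fun z hz => ?_⟩
    · unfold F4; fun_prop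
    · unfold F4; fun_prop
    · unfold F4
      rw [norm_div]
      have := norm_add_le (1 : ℂ) (z i0)
      have h1 := norm_le_one hz i0
      rw [norm_one] at this
      simp only [Complex.norm_ofNat]
      linarith
  · refine ⟨?_, poly_weakCR hk ?_ 1 fun z hz => ?_⟩
    · unfold F5; fun_prop
    · unfold F5; fun_prop
    · unfold F5
      rw [norm_div, norm_real, Real.norm_eq_abs, abs_of_nonneg (Real.sqrt_nonneg 2)]
      have h1 := norm_le_one hz i1
      have h2 : 1 ≤ Real.sqrt 2 := Real.one_le_sqrt.2 (by norm_num)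
      rw [div_le_one (by positivity)]
      linarith

theorem assembled {k : ℕ∞} (hk : 2 ≤ k) {n c c' m d₁ d₂ : ℕ} {β : Fin n → Option (Fin c)}
    {β' : Fin n → Option (Fin c')} (hc : 0 < c) (hc' : 0 < c')
    (hβ : ∀ b, ∃ i j, i ≠ j ∧ β i = some b ∧ β j = some b)
    (hβ' : ∀ b, ∃ i j, i ≠ j ∧ β' i = some b ∧ β' j = some b)
    (hd₁ : 2 * n = c + 2 * Fintype.card {j // β j = none} + d₁)
    (hd₂ : 2 * n = c' + 2 * Fintype.card {j // β' j = none} + d₂)
    (hm₁ : n = c + Fintype.card {j // β j = none} + m)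
    (hm₂ : n = c' + Fintype.card {j // β' j = none} + m)
    {i0 i1 i2 i3 j1 : Fin n} (hne : i0 ≠ i2) (f : Cn n → Cn n)
    (hD : ∀ z ∈ sphereProd β, normSq (z i0) + normSq (z i1) = 1 ∧ normSq (z i2) + normSq (z i3) = 1)
    (hmaps : Set.MapsTo f (sphereProd β) (sphereProd β'))
    (hcomp : ∀ j, (∃ i, (fun z => f z j) = fun z => z i) ∨ (∃ a, (fun z => f z j) = fun _ => a) ∨
      ((fun z => f z j) = fun z => F1 (z i0) (z i2)) ∨
      ((fun z => f z j) = fun z => F2 (z i0) (z i1) (z i2)) ∨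
      ((fun z => f z j) = fun z => F3 (z i0) (z i2) (z i3)) ∨
      ((fun z => f z j) = fun z => F4 (z i0)) ∨ ((fun z => f z j) = fun z => F5 (z i1)))
    (hj1 : ∀ z, f z j1 = F1 (z i0) (z i2)) (p : Cn n) (hp : p ∈ sphereProd β)
    (hcrv : ∀ a c : ℂ, normSq a = 1 → normSq c = 1 → crv p i0 i2 a c ∈ sphereProd β)
    (hp0 : p i0 = 1) (hp2 : p i2 = 1) : ¬ RegularityAssertion k (compare d₁ d₂) := by
  intro H
  have hk1 : 1 ≤ k := le_trans (by norm_num) hk
  have h := H n m d₁ d₂ (sphereProd β) (sphereProd β') f rfl (isCompact_sphereProd β)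
    (isCompact_sphereProd β')
    ⟨isSubmanifold_sphereProd k hk1 β hd₁, fun p hp => finrank_complexTangent β hm₁ hp⟩
    ⟨isSubmanifold_sphereProd k hk1 β' hd₂, fun p hp => finrank_complexTangent β' hm₂ hp⟩
    (leviCone_sphereProd hc hβ) (leviCone_sphereProd hc' hβ') hmaps
    (continuousOn_pi.2 fun j => (comp_facts (d := d₁) hk1 i0 i1 i2 i3 hD _ (hcomp j)).1)
    (fun j => (comp_facts hk1 i0 i1 i2 i3 hD _ (hcomp j)).2)
  exact not_regMinus hk hne hcrv hp0 hp2 hj1 (exists_param_sphereProd k hk1 β hd₁ hp) h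

theorem case_lt {k : ℕ∞} (hk : 2 ≤ k) : ¬ RegularityAssertion k Ordering.lt := by
  have key : ¬ RegularityAssertion k (compare 17 18) := by
    refine assembled hk (n := 11) (c := 3) (c' := 4) (m := 7) (β := beta11) (β' := beta11')
      (by norm_num) (by norm_num) (by decide) (by decide) (by decide) (by decide) (by decide) (by decide)
      (i0 := 0) (i1 := 1) (i2 := 2) (i3 := 3) (j1 := 0) (by decide) f11 ?_ ?_ ?_ ?_
      ![1, 0, 1, 0, 1, 0, 0, 0, 0, 0, 0] ?_ ?_ ?_ ?_
    · intro z hz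
      have h := (mem_sphereProd_iff.1 hz).1
      have h0 := h 0
      have h1 := h 1
      rw [nsq11_0] at h0
      rw [nsq11_1] at h1
      exact ⟨h0, h1⟩
    · intro z hz
      have h := (mem_sphereProd_iff.1 hz).1
      have h0 := h 0
      have h1 := h 1
      rw [nsq11_0] at h0
      rw [nsq11_1] at h1
      rw [mem_sphereProd_iff]
      refine ⟨fun b => ?_, fun j hj => ?_⟩
      · fin_cases b
        · simp only [Fin.zero_eta]
          rw [nsq11'_0]
          exact F_sum h0 h1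
        · simp only [Fin.mk_one]
          rw [nsq11'_1]
          exact h0
        · simp only [Fin.reduceFinMk]
          rw [nsq11'_2]
          exact h1
        · simp only [Fin.reduceFinMk]
          rw [nsq11'_3]
          simp [f11]
      · revert hj; fin_cases j <;> simp [beta11']
    · intro j
      fin_cases j
      · exact Or.inr (Or.inr (Or.inl rfl))
      · exact Or.inr (Or.inr (Or.inr (Or.inl rfl)))
      · exact Or.inr (Or.inr (Or.inr (Or.inr (Or.inl rfl))))
      · exact Or.inr (Or.inr (Or.inr (Or.inr (Or.inr (Or.inl rfl)))))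
      · exact Or.inr (Or.inr (Or.inr (Or.inr (Or.inr (Or.inr rfl)))))
      · exact Or.inl ⟨0, rfl⟩
      · exact Or.inl ⟨1, rfl⟩
      · exact Or.inl ⟨2, rfl⟩
      · exact Or.inl ⟨3, rfl⟩
      · exact Or.inr (Or.inl ⟨1, rfl⟩)
      · exact Or.inr (Or.inl ⟨0, rfl⟩)
    · intro z; rfl
    · rw [mem_sphereProd_iff]
      refine ⟨fun b => ?_, fun j hj => ?_⟩
      · fin_cases b
        · simp only [Fin.zero_eta]
          rw [nsq11_0]; simp
        · simp only [Fin.mk_one]
          rw [nsq11_1]; simp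
        · simp only [Fin.reduceFinMk]
          rw [nsq11_2]; simp
      · revert hj; fin_cases j <;> simp [beta11]
    · intro a c ha hc
      rw [mem_sphereProd_iff]
      refine ⟨fun b => ?_, fun j hj => ?_⟩
      · fin_cases b
        · simp only [Fin.zero_eta]
          rw [nsq11_0]; simp [crv, ha]
        · simp only [Fin.mk_one]
          rw [nsq11_1]; simp [crv, hc]
        · simp only [Fin.reduceFinMk]
          rw [nsq11_2]; simp [crv]
      · revert hj; fin_cases j <;> simp [beta11, crv]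
    · rfl
    · rfl
  exact key

theorem case_gt {k : ℕ∞} (hk : 2 ≤ k) : ¬ RegularityAssertion k Ordering.gt := by
  have key : ¬ RegularityAssertion k (compare 11 9) := by
    refine assembled hk (n := 7) (c := 3) (c' := 1) (m := 4) (β := beta7) (β' := beta7')
      (by norm_num) (by norm_num) (by decide) (by decide) (by decide) (by decide) (by decide) (by decide)
      (i0 := 0) (i1 := 1) (i2 := 2) (i3 := 3) (j1 := 0) (by decide) f7 ?_ ?_ ?_ ?_
      ![1, 0, 1, 0, 1, 0, 0] ?_ ?_ ?_ ?_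
    · intro z hz
      have h := (mem_sphereProd_iff.1 hz).1
      have h0 := h 0
      have h1 := h 1
      rw [nsq7_0] at h0
      rw [nsq7_1] at h1
      exact ⟨h0, h1⟩
    · intro z hz
      have h := (mem_sphereProd_iff.1 hz).1
      have h0 := h 0
      have h1 := h 1
      rw [nsq7_0] at h0
      rw [nsq7_1] at h1
      rw [mem_sphereProd_iff]
      refine ⟨fun b => ?_, fun j hj => ?_⟩
      · fin_cases b
        · simp only [Fin.zero_eta]
          rw [nsq7'_0]
          exact F_sum h0 h1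
      · revert hj; fin_cases j <;> simp [beta7', f7]
    · intro j
      fin_cases j
      · exact Or.inr (Or.inr (Or.inl rfl))
      · exact Or.inr (Or.inr (Or.inr (Or.inl rfl)))
      · exact Or.inr (Or.inr (Or.inr (Or.inr (Or.inl rfl))))
      · exact Or.inr (Or.inr (Or.inr (Or.inr (Or.inr (Or.inl rfl)))))
      · exact Or.inr (Or.inr (Or.inr (Or.inr (Or.inr (Or.inr rfl)))))
      · exact Or.inr (Or.inl ⟨0, rfl⟩)
      · exact Or.inr (Or.inl ⟨0, rfl⟩)
    · intro z; rfl
    · rw [mem_sphereProd_iff]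
      refine ⟨fun b => ?_, fun j hj => ?_⟩
      · fin_cases b
        · simp only [Fin.zero_eta]
          rw [nsq7_0]; simp
        · simp only [Fin.mk_one]
          rw [nsq7_1]; simp
        · simp only [Fin.reduceFinMk]
          rw [nsq7_2]; simp
      · revert hj; fin_cases j <;> simp [beta7]
    · intro a c ha hc
      rw [mem_sphereProd_iff]
      refine ⟨fun b => ?_, fun j hj => ?_⟩
      · fin_cases b
        · simp only [Fin.zero_eta]
          rw [nsq7_0]; simp [crv, ha]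
        · simp only [Fin.mk_one]
          rw [nsq7_1]; simp [crv, hc]
        · simp only [Fin.reduceFinMk]
          rw [nsq7_2]; simp [crv]
      · revert hj; fin_cases j <;> simp [beta7]
    · rfl
    · rfl
  exact key

theorem case_eq {k : ℕ∞} (hk : 2 ≤ k) : ¬ RegularityAssertion k Ordering.eq := by
  have key : ¬ RegularityAssertion k (compare 15 15) := by
    refine assembled hk (n := 9) (c := 3) (c' := 3) (m := 6) (β := beta9) (β' := beta9)
      (by norm_num) (by norm_num) (by decide) (by decide) (by decide) (by decide) (by decide) (by decide)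
      (i0 := 0) (i1 := 1) (i2 := 2) (i3 := 3) (j1 := 4) (by decide) f9 ?_ ?_ ?_ ?_
      ![1, 0, 1, 0, 1, 0, 0, 0, 0] ?_ ?_ ?_ ?_
    · intro z hz
      have h := (mem_sphereProd_iff.1 hz).1
      have h0 := h 0
      have h1 := h 1
      rw [nsq9_0] at h0
      rw [nsq9_1] at h1
      exact ⟨h0, h1⟩
    · intro z hz
      have h := (mem_sphereProd_iff.1 hz).1
      have h0 := h 0
      have h1 := h 1
      rw [nsq9_0] at h0
      rw [nsq9_1] at h1
      rw [mem_sphereProd_iff]
      refine ⟨fun b => ?_, fun j hj => ?_⟩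
      · fin_cases b
        · simp only [Fin.zero_eta]
          rw [nsq9_0]
          exact h0
        · simp only [Fin.mk_one]
          rw [nsq9_1]
          exact h1
        · simp only [Fin.reduceFinMk]
          rw [nsq9_2]
          exact F_sum h0 h1
      · revert hj; fin_cases j <;> simp [beta9]
    · intro j
      fin_cases j
      · exact Or.inl ⟨0, rfl⟩
      · exact Or.inl ⟨1, rfl⟩
      · exact Or.inl ⟨2, rfl⟩
      · exact Or.inl ⟨3, rfl⟩
      · exact Or.inr (Or.inr (Or.inl rfl))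
      · exact Or.inr (Or.inr (Or.inr (Or.inl rfl)))
      · exact Or.inr (Or.inr (Or.inr (Or.inr (Or.inl rfl))))
      · exact Or.inr (Or.inr (Or.inr (Or.inr (Or.inr (Or.inl rfl)))))
      · exact Or.inr (Or.inr (Or.inr (Or.inr (Or.inr (Or.inr rfl)))))
    · intro z; rfl
    · rw [mem_sphereProd_iff]
      refine ⟨fun b => ?_, fun j hj => ?_⟩
      · fin_cases b
        · simp only [Fin.zero_eta]
          rw [nsq9_0]; simp
        · simp only [Fin.mk_one]
          rw [nsq9_1]; simp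
        · simp only [Fin.reduceFinMk]
          rw [nsq9_2]; simp
      · revert hj; fin_cases j <;> simp [beta9]
    · intro a c ha hc
      rw [mem_sphereProd_iff]
      refine ⟨fun b => ?_, fun j hj => ?_⟩
      · fin_cases b
        · simp only [Fin.zero_eta]
          rw [nsq9_0]; simp [crv, ha]
        · simp only [Fin.mk_one]
          rw [nsq9_1]; simp [crv, hc]
        · simp only [Fin.reduceFinMk]
          rw [nsq9_2]; simp [crv]
      · revert hj; fin_cases j <;> simp [beta9]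
    · rfl
    · rfl
  exact key

end Pool.Agent.W_MP_c8d476_an
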