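import Pool.Agent.W_MP_c8d476_an.Spheres

open scoped Topology ContDiff ComplexConjugate
open MeasureTheory Complex

noncomputable section

namespace Pool.Agent.W_MP_c8d476_an


variable {n c : ℕ}

theorem blk_smul_right (β : Fin n → Option (Fin c)) (b : Fin c) (a : ℂ) (v z : Cn n) :
    blk β b v (a • z) = conj a * blk β b v z := by
  unfold blk
  rw [Finset.mul_sum]
  refine Finset.sum_congr rfl fun j _ => ?_
  split_ifs
  · simp only [Pi.smul_apply, smul_eq_mul, map_mul]; ring
  · simp

theorem levi_bracket {β : Fin n → Option (Fin c)} {p v : Cn n} (hp : p ∈ sphereProd β)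
    (hv : v ∈ complexTangent (sphereProd β) p) {V : Cn n → Cn n} (hV : ContDiffAt ℝ 1 V p)
    (hVp : V p = v) (hVt : ∀ᶠ z in 𝓝[sphereProd β] p, V z ∈ complexTangent (sphereProd β) z)
    (b : Fin c) :
    blk β b (VectorField.lieBracket ℝ V (fun z => I • V z) p) p = -2 * I * nsq β b v := by
  have hVd : DifferentiableAt ℝ V p := hV.differentiableAt one_ne_zero
  -- derivative of the tangency condition
  have key : ∀ w ∈ tangentSpace (sphereProd β) p,
      blk β b (fderiv ℝ V p w) p + blk β b v w = 0 := by
    intro w hw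
    have hw' : w ∈ tanSub β p := (mem_tangentSpace_iff hp).1 hw
    obtain ⟨γ, h0, hγ, hM⟩ := exists_curve hp hw'
    have h1 : HasDerivAt (fun t => V (γ t)) (fderiv ℝ V p w) 0 := by
      have h2 : HasFDerivAt V (fderiv ℝ V p) (γ 0) := by rw [h0]; exact hVd.hasFDerivAt
      exact h2.comp_hasDerivAt (0 : ℝ) hγ
    have h2 := blk_hasDerivAt β b h1 hγ
    have h3 : HasDerivAt (fun s => blk β b (V (γ s)) (γ s)) 0 0 := by
      refine (hasDerivAt_const (0 : ℝ) (0 : ℂ)).congr_of_eventuallyEq ?_
      have h4 : Filter.Tendsto γ (𝓝 0) (𝓝[sphereProd β] p) := by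
        rw [tendsto_nhdsWithin_iff]
        refine ⟨?_, Filter.Eventually.of_forall hM⟩
        have := hγ.continuousAt.tendsto
        rwa [h0] at this
      filter_upwards [h4.eventually hVt] with t ht
      exact ((mem_complexTangent_iff (hM t)).1 ht).1 b
    have h5 := h2.unique h3
    rw [h0, hVp] at h5
    exact h5
  have hvT : v ∈ tangentSpace (sphereProd β) p := hv.1
  have hivT : I • v ∈ tangentSpace (sphereProd β) p := hv.2
  have k1 := key v hvT
  have k2 := key (I • v) hivT
  rw [blk_self] at k1
  rw [blk_smul_right, blk_self, conj_I] at k2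
  have hW : fderiv ℝ (fun z => I • V z) p = I • fderiv ℝ V p := fderiv_const_smul hVd I
  have hb : VectorField.lieBracket ℝ V (fun z => I • V z) p =
      I • (fderiv ℝ V p v) - fderiv ℝ V p (I • v) := by
    rw [VectorField.lieBracket, hW, hVp]
    rfl
  rw [hb, blk_sub_left, blk_smul_left]
  linear_combination I * k1 - k2

/-- a section of `T^c` through `v` -/
def secV (β : Fin n → Option (Fin c)) (v : Cn n) (z : Cn n) : Cn n := fun j =>
  match β j with
  | none => 0
  | some b => v j - blk β b v z * z j

theorem blk_congr (β : Fin n → Option (Fin c)) (b : Fin c) {v w z : Cn n}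
    (h : ∀ j, β j = some b → v j = w j) : blk β b v z = blk β b w z := by
  unfold blk
  refine Finset.sum_congr rfl fun j _ => ?_
  split_ifs with hj
  · rw [h j hj]
  · rfl

theorem contDiff_blk (β : Fin n → Option (Fin c)) (b : Fin c) (v : Cn n) {k : WithTop ℕ∞} :
    ContDiff ℝ k (fun z => blk β b v z) := by
  unfold blk
  refine ContDiff.sum fun j _ => ?_
  split_ifs
  · have : ContDiff ℝ k (fun z : Cn n => conj (z j)) :=
      (conjCLE.contDiff (n := k)).comp (contDiff_apply ℝ ℂ j)
    exact this.mul contDiff_const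
  · exact contDiff_const

theorem contDiff_secV (β : Fin n → Option (Fin c)) (v : Cn n) {k : WithTop ℕ∞} :
    ContDiff ℝ k (secV β v) := by
  rw [contDiff_pi]
  intro j
  unfold secV
  cases β j with
  | none => exact contDiff_const
  | some b => exact contDiff_const.sub ((contDiff_blk β b v).mul (contDiff_apply ℝ ℂ j))

theorem secV_mem {β : Fin n → Option (Fin c)} {v z : Cn n} (hz : z ∈ sphereProd β) :
    secV β v z ∈ complexTangent (sphereProd β) z := by
  rw [mem_complexTangent_iff hz]
  refine ⟨fun b => ?_, fun j hj => ?_⟩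
  · have : blk β b (secV β v z) z = blk β b (v - blk β b v z • z) z := by
      apply blk_congr
      intro j hj
      simp [secV, hj]
    rw [this, blk_sub_left, blk_smul_left, hz.1 b]; ring
  · simp [secV, hj]

theorem secV_self {β : Fin n → Option (Fin c)} {v p : Cn n} (hp : p ∈ sphereProd β)
    (hv : v ∈ complexTangent (sphereProd β) p) : secV β v p = v := by
  rw [mem_complexTangent_iff hp] at hv
  ext j
  unfold secV
  cases h : β j with
  | none => exact (hv.2 j h).symm
  | some b => simp [hv.1 b]

theorem exists_leviValue {β : Fin n → Option (Fin c)} {v p : Cn n} (hp : p ∈ sphereProd β)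
    (hv : v ∈ complexTangent (sphereProd β) p) : ∃ ξ, IsLeviValue (sphereProd β) p v ξ := by
  have h1 := levi_bracket hp hv (contDiff_secV β v).contDiffAt (secV_self hp hv)
    (eventually_nhdsWithin_of_forall fun z hz => secV_mem hz)
  have h2 : VectorField.lieBracket ℝ (secV β v) (fun z => I • secV β v z) p ∈
      tangentSpace (sphereProd β) p := by
    rw [mem_tangentSpace_iff hp]
    refine ⟨fun b => by rw [h1 b]; simp, fun j hj => ?_⟩
    have hd : DifferentiableAt ℝ (secV β v) p :=
      ((contDiff_secV β v (k := 1)).differentiable one_ne_zero) p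
    have hW : fderiv ℝ (fun z => I • secV β v z) p = I • fderiv ℝ (secV β v) p := fderiv_const_smul hd I
    have h0 : ∀ w, fderiv ℝ (secV β v) p w j = 0 := by
      intro w
      have h3 : HasFDerivAt (fun z => secV β v z j) ((ContinuousLinearMap.proj j).comp (fderiv ℝ (secV β v) p)) p :=
        (hasFDerivAt_pi'.1 hd.hasFDerivAt) j
      have h4 : HasFDerivAt (fun z => secV β v z j) (0 : Cn n →L[ℝ] ℂ) p := by
        have : (fun z => secV β v z j) = fun _ => 0 := by
          ext z; simp [secV, hj]
        rw [this]
        exact hasFDerivAt_const _ _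
      have h5 := congrArg (fun A : Cn n →L[ℝ] ℂ => A w) (h3.unique h4)
      simpa using h5
    rw [VectorField.lieBracket, hW]
    simp [h0]
  exact ⟨Submodule.Quotient.mk ⟨_, h2⟩, secV β v, ⟨_, h2⟩, (contDiff_secV β v).contDiffAt,
    secV_self hp hv, eventually_nhdsWithin_of_forall fun z hz => secV_mem hz, rfl, rfl⟩

/-- the linear coordinates on the normal space -/
def nlam (β : Fin n → Option (Fin c)) (p : Cn n) (hp : p ∈ sphereProd β) :
    NormalSpace (sphereProd β) p →ₗ[ℝ] (Fin c → ℝ) :=
  Submodule.liftQ _
    { toFun := fun w b => (blk β b (w : Cn n) p).im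
      map_add' := fun v w => by ext b; simp [blk_add_left]
      map_smul' := fun a v => by ext b; simp [blk_rsmul_left] }
    (by
      intro w hw
      have hw' : (w : Cn n) ∈ complexTangent (sphereProd β) p := hw
      rw [mem_complexTangent_iff hp] at hw'
      rw [LinearMap.mem_ker]
      ext b
      simp [hw'.1 b])

theorem nlam_mk (β : Fin n → Option (Fin c)) (p : Cn n) (hp : p ∈ sphereProd β)
    (w : tangentSpace (sphereProd β) p) (b : Fin c) :
    nlam β p hp (Submodule.Quotient.mk w) b = (blk β b (w : Cn n) p).im := rfl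

theorem nlam_injective (β : Fin n → Option (Fin c)) (p : Cn n) (hp : p ∈ sphereProd β) :
    Function.Injective (nlam β p hp) := by
  rw [injective_iff_map_eq_zero]
  intro ξ hξ
  obtain ⟨w, rfl⟩ := Submodule.Quotient.mk_surjective _ ξ
  rw [Submodule.Quotient.mk_eq_zero]
  change (w : Cn n) ∈ complexTangent (sphereProd β) p
  rw [mem_complexTangent_iff hp]
  have hw := (mem_tangentSpace_iff hp).1 w.2
  refine ⟨fun b => Complex.ext (hw.1 b) ?_, hw.2⟩
  have := congrFun hξ b
  rw [nlam_mk] at this
  simpa using this

theorem nlam_continuous (β : Fin n → Option (Fin c)) (p : Cn n) (hp : p ∈ sphereProd β) :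
    Continuous (nlam β p hp) := by
  rw [continuous_pi_iff]
  intro b
  have h : Continuous fun w : tangentSpace (sphereProd β) p => (blk β b (w : Cn n) p).im := by
    unfold blk
    refine continuous_im.comp (continuous_finsetSum _ fun j _ => ?_)
    split_ifs
    · exact continuous_const.mul ((continuous_apply j).comp continuous_subtype_val)
    · exact continuous_const
  exact (Submodule.isOpenQuotientMap_mkQ _).isQuotientMap.continuous_iff.2 h

theorem nlam_levi {β : Fin n → Option (Fin c)} {v p : Cn n} (hp : p ∈ sphereProd β)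
    (hv : v ∈ complexTangent (sphereProd β) p) {ξ : NormalSpace (sphereProd β) p}
    (hξ : IsLeviValue (sphereProd β) p v ξ) (b : Fin c) : nlam β p hp ξ b = -2 * nsq β b v := by
  obtain ⟨V, w, h1, h2, h3, h4, rfl⟩ := hξ
  rw [nlam_mk, h4, levi_bracket hp hv h1 h2 h3]
  simp


theorem nsq_sum_pos {β : Fin n → Option (Fin c)} {v : Cn n} (hv : v ≠ 0)
    (hv0 : ∀ j, β j = none → v j = 0) : 0 < ∑ b, nsq β b v := by
  obtain ⟨j, hj⟩ := Function.ne_iff.1 hv
  cases h : β j with
  | none => exact absurd (hv0 j h) hj
  | some b =>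
    refine Finset.sum_pos' (fun b _ => nsq_nonneg β b v) ⟨b, Finset.mem_univ _, ?_⟩
    unfold nsq
    refine Finset.sum_pos' (fun i _ => ?_) ⟨j, Finset.mem_univ _, ?_⟩
    · split_ifs
      · exact normSq_nonneg _
      · exact le_rfl
    · rw [if_pos h]
      exact normSq_pos.2 hj

/-- in every block there is a nonzero complex tangent vector -/
theorem exists_block_tangent {β : Fin n → Option (Fin c)}
    (hβ : ∀ b, ∃ i j, i ≠ j ∧ β i = some b ∧ β j = some b) {p : Cn n} (hp : p ∈ sphereProd β) :
    ∃ v ∈ complexTangent (sphereProd β) p, ∀ b, 0 < nsq β b v := by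
  have h1 : ∀ b, ∃ u : Cn n, (∀ j, β j ≠ some b → u j = 0) ∧ blk β b u p = 0 ∧ ∃ j, β j = some b ∧ u j ≠ 0 := by
    intro b
    obtain ⟨i, j, hij, hi, hj⟩ := hβ b
    by_cases hz : p i = 0 ∧ p j = 0
    · refine ⟨Pi.single i 1, fun l hl => ?_, ?_, i, hi, by simp⟩
      · have : l ≠ i := by rintro rfl; exact hl hi
        simp [this]
      · unfold blk
        refine Finset.sum_eq_zero fun l _ => ?_
        split_ifs
        · by_cases hl : l = i
          · subst hl; rw [hz.1]; simp
          · simp [hl]
        · rfl
    · refine ⟨Pi.single i (conj (p j)) - Pi.single j (conj (p i)), fun l hl => ?_, ?_, ?_⟩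
      · have h2 : l ≠ i := by rintro rfl; exact hl hi
        have h3 : l ≠ j := by rintro rfl; exact hl hj
        simp [h2, h3]
      · unfold blk
        have : ∀ l, (if β l = some b then conj (p l) *
            ((Pi.single i (conj (p j)) - Pi.single j (conj (p i)) : Cn n) l) else 0) =
            (if l = i then conj (p i) * conj (p j) else 0) - (if l = j then conj (p j) * conj (p i) else 0) := by
          intro l
          by_cases h2 : l = i
          · subst h2
            simp [hi, hij]
          · by_cases h3 : l = j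
            · subst h3
              simp [hj, h2]
            · simp [h2, h3]
        rw [Finset.sum_congr rfl fun l _ => this l, Finset.sum_sub_distrib]
        simp [mul_comm]
      · by_cases h2 : p j = 0
        · refine ⟨j, hj, ?_⟩
          have : p i ≠ 0 := fun h => hz ⟨h, h2⟩
          simp [hij.symm, this]
        · exact ⟨i, hi, by simp [hij, h2]⟩
  choose u hu1 hu2 hu3 using h1
  refine ⟨∑ b, u b, ?_, fun b => ?_⟩
  · refine Submodule.sum_mem _ fun b _ => ?_
    rw [mem_complexTangent_iff hp]
    refine ⟨fun b' => ?_, fun j hj => hu1 b j (by simp [hj])⟩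
    by_cases h : b' = b
    · rw [h]; exact hu2 b
    · unfold blk
      refine Finset.sum_eq_zero fun l _ => ?_
      split_ifs with hl
      · rw [hu1 b l (by rw [hl]; simpa using h), mul_zero]
      · rfl
  · obtain ⟨j, hj, hj0⟩ := hu3 b
    unfold nsq
    refine Finset.sum_pos' (fun i _ => ?_) ⟨j, Finset.mem_univ _, ?_⟩
    · split_ifs
      · exact normSq_nonneg _
      · exact le_rfl
    · rw [if_pos hj, normSq_pos, Finset.sum_apply, Finset.sum_eq_single b]
      · exact hj0
      · intro b' _ hb'
        exact hu1 b' j (by rw [hj]; simpa using hb'.symm)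
      · simp

/-- given positive prescribed block norms there is a complex tangent vector realising them -/
theorem exists_tangent_nsq {β : Fin n → Option (Fin c)}
    (hβ : ∀ b, ∃ i j, i ≠ j ∧ β i = some b ∧ β j = some b) {p : Cn n} (hp : p ∈ sphereProd β)
    (y : Fin c → ℝ) (hy : ∀ b, 0 < y b) :
    ∃ v ∈ complexTangent (sphereProd β) p, ∀ b, nsq β b v = y b := by
  obtain ⟨u, hu, hu'⟩ := exists_block_tangent hβ hp
  rw [mem_complexTangent_iff hp] at hu
  refine ⟨fun j => match β j with
    | none => 0
    | some b => (Real.sqrt (y b / nsq β b u) : ℂ) * u j, ?_, fun b => ?_⟩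
  · rw [mem_complexTangent_iff hp]
    refine ⟨fun b => ?_, fun j hj => by simp [hj]⟩
    have : blk β b (fun j => match β j with
      | none => 0
      | some b => (Real.sqrt (y b / nsq β b u) : ℂ) * u j) p =
      blk β b ((Real.sqrt (y b / nsq β b u) : ℂ) • u) p := by
      apply blk_congr
      intro j hj
      simp [hj]
    rw [this, blk_smul_left, hu.1 b, mul_zero]
  · have h2 : 0 ≤ y b / nsq β b u := div_nonneg (hy b).le (hu' b).le
    have h1 : nsq β b (fun j => match β j with
      | none => 0
      | some b => (Real.sqrt (y b / nsq β b u) : ℂ) * u j) =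
      (y b / nsq β b u) * nsq β b u := by
      generalize hq : (fun b => y b / nsq β b u) = q
      have hqb : y b / nsq β b u = q b := by rw [← hq]
      rw [hqb] at h2 ⊢
      have h3 : (fun j => match β j with
        | none => 0
        | some b => (Real.sqrt (y b / nsq β b u) : ℂ) * u j) = (fun j => match β j with
        | none => 0
        | some b => (Real.sqrt (q b) : ℂ) * u j) := by
        rw [← hq]
      rw [h3]
      unfold nsq
      rw [Finset.mul_sum]
      refine Finset.sum_congr rfl fun j _ => ?_
      split_ifs with hj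
      · simp only [hj]
        rw [map_mul, normSq_ofReal, Real.mul_self_sqrt h2]
      · simp
    rw [h1, div_mul_cancel₀ _ (hu' b).ne']

theorem leviCone_sphereProd {β : Fin n → Option (Fin c)} (hc : 0 < c)
    (hβ : ∀ b, ∃ i j, i ≠ j ∧ β i = some b ∧ β j = some b) : LeviCone (sphereProd β) := by
  intro p hp
  have hcont := nlam_continuous β p hp
  refine ⟨⟨nlam β p hp ⁻¹' {y | ∀ b, y b + ∑ b', y b' ≤ 0}, ?_, ?_, ?_, ?_, ?_⟩, ?_⟩
  · refine IsClosed.preimage hcont ?_
    simp only [Set.ofPred_forall]
    exact isClosed_iInter fun b => isClosed_le (by fun_prop) continuous_const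
  · refine Convex.linear_preimage ?_ (nlam β p hp)
    intro x hx y hy a b ha hb hab i
    have h1 := hx i
    have h2 := hy i
    have h3 : (a • x + b • y) i + ∑ j, (a • x + b • y) j =
        a * (x i + ∑ j, x j) + b * (y i + ∑ j, y j) := by
      simp only [Pi.add_apply, Pi.smul_apply, smul_eq_mul, Finset.sum_add_distrib, ← Finset.mul_sum]
      ring
    rw [h3]
    nlinarith
  · intro a ha x hx b
    have h1 := hx b
    rw [map_smul]
    have h3 : (a • nlam β p hp x) b + ∑ j, (a • nlam β p hp x) j =
        a * (nlam β p hp x b + ∑ j, nlam β p hp x j) := by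
      simp only [Pi.smul_apply, smul_eq_mul, ← Finset.mul_sum]
      ring
    rw [h3]
    exact mul_nonpos_of_nonneg_of_nonpos ha h1
  · rintro ⟨x, d, hd, h⟩
    apply hd
    apply nlam_injective β p hp
    rw [map_zero]
    have h1 : ∀ b, nlam β p hp d b + ∑ j, nlam β p hp d j = 0 := by
      intro b
      by_contra hne
      have h2 : ∀ t : ℝ, (nlam β p hp x b + ∑ j, nlam β p hp x j) +
          t * (nlam β p hp d b + ∑ j, nlam β p hp d j) ≤ 0 := by
        intro t
        have h3 := h t b
        rw [map_add, map_smul] at h3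
        simp only [Pi.add_apply, Pi.smul_apply, smul_eq_mul, Finset.sum_add_distrib,
          ← Finset.mul_sum] at h3
        linarith
      have h3 := h2 ((1 - (nlam β p hp x b + ∑ j, nlam β p hp x j)) /
        (nlam β p hp d b + ∑ j, nlam β p hp d j))
      rw [div_mul_cancel₀ _ hne] at h3
      linarith
    have h2 : (∑ j, nlam β p hp d j) * (1 + c) = 0 := by
      have h3 := Finset.sum_congr (s₁ := Finset.univ) rfl fun b (_ : b ∈ Finset.univ) => h1 b
      rw [Finset.sum_add_distrib] at h3
      simp only [Finset.sum_const, Finset.card_univ, Fintype.card_fin, nsmul_eq_mul] at h3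
      linarith
    have h3 : (∑ j, nlam β p hp d j) = 0 := by
      rcases mul_eq_zero.1 h2 with h3 | h3
      · exact h3
      · exfalso
        have : (0 : ℝ) ≤ c := Nat.cast_nonneg c
        linarith
    ext b
    have := h1 b
    rw [h3, add_zero] at this
    exact this
  · intro v hv hv0
    refine ⟨exists_leviValue hp hv, fun ξ hξ => ?_⟩
    rw [mem_interior]
    refine ⟨nlam β p hp ⁻¹' {y | ∀ b, y b + ∑ b', y b' < 0}, fun x hx b => (hx b).le, ?_, ?_⟩
    · refine IsOpen.preimage hcont ?_
      simp only [Set.ofPred_forall]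
      exact isOpen_iInter_of_finite fun b => isOpen_lt (by fun_prop) continuous_const
    · intro b
      have h1 := nsq_sum_pos hv0 ((mem_complexTangent_iff hp).1 hv).2
      simp only [nlam_levi hp hv hξ, ← Finset.mul_sum]
      have := nsq_nonneg β b v
      linarith
  · obtain ⟨v, hv, hv'⟩ := exists_tangent_nsq hβ hp (fun _ => 1) (fun _ => one_pos)
    obtain ⟨ξ, hξ⟩ := exists_leviValue hp hv
    have hsub : nlam β p hp ⁻¹' {y | ∀ b, y b < 0} ⊆ convexHull ℝ
      {ξ : NormalSpace (sphereProd β) p |
        ∃ v ∈ complexTangent (sphereProd β) p, v ≠ 0 ∧ IsLeviValue (sphereProd β) p v ξ} := by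
      refine fun η hη => subset_convexHull ℝ _ ?_
      obtain ⟨w, hw, hw'⟩ := exists_tangent_nsq hβ hp (fun b => -(nlam β p hp η b) / 2)
        (fun b => by have := hη b; linarith)
      obtain ⟨ζ, hζ⟩ := exists_leviValue hp hw
      have h1 : ζ = η := by
        apply nlam_injective β p hp
        ext b
        rw [nlam_levi hp hw hζ, hw' b]; ring
      refine ⟨w, hw, ?_, h1 ▸ hζ⟩
      rintro rfl
      have h2 := hw' ⟨0, hc⟩
      have h3 := hη ⟨0, hc⟩
      have h4 : nsq β ⟨0, hc⟩ (0 : Cn n) = 0 := by simp [nsq]
      rw [h4] at h2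
      linarith
    refine ⟨ξ, mem_interior.2 ⟨_, hsub, ?_, ?_⟩⟩
    · refine IsOpen.preimage hcont ?_
      simp only [Set.ofPred_forall]
      exact isOpen_iInter_of_finite fun b => isOpen_lt (by fun_prop) continuous_const
    · intro b
      rw [nlam_levi hp hv hξ, hv' b]
      norm_num

end Pool.Agent.W_MP_c8d476_an
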