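import Pool.Agent.W_MP_c8d476_an.Defs

open scoped Topology ContDiff ComplexConjugate
open MeasureTheory Complex

noncomputable section

namespace Pool.Agent.W_MP_c8d476_an


/-- A regular level set has graph-like parametrisations, with a linear left inverse. -/
theorem exists_localParam {n d : ℕ} {G : Type*} [NormedAddCommGroup G] [NormedSpace ℝ G]
    [FiniteDimensional ℝ G] (k : ℕ∞) (hk : 1 ≤ k) (ρ : Cn n → G) (hρ : ContDiff ℝ k ρ) (M : Set (Cn n))
    (hM : M = {z | ρ z = 0}) (p : Cn n) (hp : p ∈ M) (hs : Function.Surjective (fderiv ℝ ρ p))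
    (hd : Module.finrank ℝ (Cn n) = Module.finrank ℝ G + d) :
    ∃ (U : Set (Fin d → ℝ)) (ψ : (Fin d → ℝ) → Cn n) (π : Cn n →L[ℝ] (Fin d → ℝ)),
      IsLocalParam k M U ψ ∧ p ∈ ψ '' U ∧ ∀ x ∈ U, π (ψ x) = x := by
  have hk0 : (k : WithTop ℕ∞) ≠ 0 := by
    intro h
    have : k = 0 := by exact_mod_cast h
    rw [this] at hk
    exact absurd hk (by simp)
  set D : Cn n →L[ℝ] G := fderiv ℝ ρ p with hD
  set K : Submodule ℝ (Cn n) := LinearMap.ker (D : Cn n →ₗ[ℝ] G) with hK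
  have hKd : Module.finrank ℝ K = d := by
    have h1 : Module.finrank ℝ (LinearMap.range (D : Cn n →ₗ[ℝ] G)) + Module.finrank ℝ K =
        Module.finrank ℝ (Cn n) := LinearMap.finrank_range_add_finrank_ker (D : Cn n →ₗ[ℝ] G)
    have h2 : LinearMap.range (D : Cn n →ₗ[ℝ] G) = ⊤ := LinearMap.range_eq_top.2 hs
    rw [h2, finrank_top] at h1
    omega
  obtain ⟨P, hP⟩ := LinearMap.exists_leftInverse_of_injective K.subtype (Submodule.ker_subtype K)
  have hKd' : Module.finrank ℝ K = Module.finrank ℝ (Fin d → ℝ) := by simp [hKd]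
  let e : K ≃ₗ[ℝ] (Fin d → ℝ) := LinearEquiv.ofFinrankEq _ _ hKd'
  let π : Cn n →L[ℝ] (Fin d → ℝ) := LinearMap.toContinuousLinearMap (e.toLinearMap ∘ₗ P)
  let Φ : Cn n → G × (Fin d → ℝ) := fun z => (ρ z, π z)
  have hΦ : ContDiff ℝ k Φ := hρ.prodMk π.contDiff
  have hρd : Differentiable ℝ ρ := hρ.differentiable hk0
  have hΦ' : ∀ z, HasFDerivAt Φ ((fderiv ℝ ρ z).prod π) z := fun z =>
    (hρd z).hasFDerivAt.prodMk π.hasFDerivAt
  have hinj : Function.Injective (D.prod π : Cn n →L[ℝ] G × (Fin d → ℝ)) := by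
    rw [injective_iff_map_eq_zero]
    intro v hv
    have hv1 : D v = 0 := congrArg Prod.fst hv
    have hv2 : π v = 0 := congrArg Prod.snd hv
    have hvK : v ∈ K := hv1
    have h3 : P v = ⟨v, hvK⟩ := by
      have := LinearMap.congr_fun hP ⟨v, hvK⟩
      simpa using this
    have h4 : e (P v) = 0 := hv2
    rw [h3] at h4
    have h5 := e.map_eq_zero_iff.1 h4
    simpa using h5
  have hfr : Module.finrank ℝ (Cn n) = Module.finrank ℝ (G × (Fin d → ℝ)) := by
    rw [Module.finrank_prod, hd]; simp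
  let L : Cn n ≃L[ℝ] G × (Fin d → ℝ) :=
    (LinearEquiv.ofInjectiveOfFinrankEq (D.prod π : Cn n →L[ℝ] G × (Fin d → ℝ)).toLinearMap hinj hfr).toContinuousLinearEquiv
  have hL : (L : Cn n →L[ℝ] G × (Fin d → ℝ)) = D.prod π := by
    ext v <;> rfl
  have hΦp : HasFDerivAt Φ (L : Cn n →L[ℝ] G × (Fin d → ℝ)) p := by
    rw [hL]; exact hΦ' p
  let Ψ := hΦ.contDiffAt.toOpenPartialHomeomorph Φ hΦp hk0
  have hΨc : ∀ z, Ψ z = Φ z := fun z => rfl
  have hps : p ∈ Ψ.source := hΦ.contDiffAt.mem_toOpenPartialHomeomorph_source hΦp hk0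
  -- invertible derivative near p
  have hinv : ∀ᶠ z in 𝓝 p, ∃ e' : Cn n ≃L[ℝ] G × (Fin d → ℝ), (e' : Cn n →L[ℝ] _) = fderiv ℝ Φ z := by
    have hc : ContinuousAt (fderiv ℝ Φ) p := (hΦ.continuous_fderiv hk0).continuousAt
    have h1 := ContinuousLinearEquiv.nhds L
    have h2 : fderiv ℝ Φ p = L := hΦp.fderiv
    rw [← h2] at h1
    exact (hc.eventually h1)
  obtain ⟨S₀, hS₀, hS₀o, hpS₀⟩ := eventually_nhds_iff.1 hinv
  let S : Set (Cn n) := S₀ ∩ Ψ.source
  have hSo : IsOpen S := hS₀o.inter Ψ.open_source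
  let T : Set (G × (Fin d → ℝ)) := Ψ.target ∩ Ψ.symm ⁻¹' S
  have hTo : IsOpen T := Ψ.symm.isOpen_inter_preimage hSo
  let U : Set (Fin d → ℝ) := {t | ((0 : G), t) ∈ T}
  have hUo : IsOpen U := hTo.preimage (by fun_prop : Continuous fun t : Fin d → ℝ => ((0 : G), t))
  let ψ : (Fin d → ℝ) → Cn n := fun t => Ψ.symm (0, t)
  have hψΦ : ∀ t ∈ U, Φ (ψ t) = (0, t) := fun t ht => by
    have := Ψ.right_inv ht.1
    exact this
  have hπψ : ∀ t ∈ U, π (ψ t) = t := fun t ht => congrArg Prod.snd (hψΦ t ht)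
  have hψs : ContDiffOn ℝ k ψ U := by
    intro t ht
    obtain ⟨e', he'⟩ := hS₀ _ ht.2.1
    have h1 : ContDiffAt ℝ k Ψ.symm ((0 : G), t) := by
      apply Ψ.contDiffAt_symm ht.1 (f₀' := e')
      · have : HasFDerivAt Φ (fderiv ℝ Φ (Ψ.symm (0, t))) (Ψ.symm (0, t)) :=
          (hΦ.differentiable hk0 _).hasFDerivAt
        rw [← he'] at this
        exact this
      · exact hΦ.contDiffAt
    exact (h1.comp t (by fun_prop : ContDiffAt ℝ k (fun t : Fin d → ℝ => ((0 : G), t)) t)).contDiffWithinAt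
  refine ⟨U, ψ, π, ⟨hUo, hψs, ?_, ?_, ?_⟩, ?_, hπψ⟩
  · intro t ht
    have h1 : DifferentiableAt ℝ ψ t :=
      ((hψs t ht).contDiffAt (hUo.mem_nhds ht)).differentiableAt hk0
    have h2 : HasFDerivAt (fun s => π (ψ s)) (π.comp (fderiv ℝ ψ t)) t :=
      π.hasFDerivAt.comp t h1.hasFDerivAt
    have h3 : HasFDerivAt (fun s => π (ψ s)) (ContinuousLinearMap.id ℝ (Fin d → ℝ)) t := by
      refine (hasFDerivAt_id t).congr_of_eventuallyEq ?_
      filter_upwards [hUo.mem_nhds ht] with s hs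
      exact hπψ s hs
    have h4 := h2.unique h3
    intro a b hab
    have h5 : ∀ c, π (fderiv ℝ ψ t c) = c := fun c => by
      have := congrArg (fun A : (Fin d → ℝ) →L[ℝ] (Fin d → ℝ) => A c) h4
      simpa using this
    rw [← h5 a, ← h5 b, hab]
  · intro a ha b hb hab
    rw [← hπψ a ha, ← hπψ b hb, hab]
  · intro V hVU hV
    refine ⟨S ∩ π ⁻¹' V, hSo.inter (hV.preimage π.continuous), ?_⟩
    ext z
    constructor
    · rintro ⟨t, ht, rfl⟩
      have h1 := hψΦ t (hVU ht)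
      refine ⟨?_, (hVU ht).2, ?_⟩
      · rw [hM]
        exact congrArg Prod.fst h1
      · rw [Set.mem_preimage, hπψ t (hVU ht)]
        exact ht
    · rintro ⟨hz, hzS, hzV⟩
      refine ⟨π z, hzV, ?_⟩
      have h1 : Φ z = (0, π z) := by
        rw [hM] at hz
        exact Prod.ext hz rfl
      change Ψ.symm (0, π z) = z
      rw [← h1]
      exact Ψ.left_inv hzS.2
  · have h1 : Φ p = (0, π p) := by
      rw [hM] at hp
      exact Prod.ext hp rfl
    have h2 : Ψ.symm (0, π p) = p := by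
      rw [← h1]
      exact Ψ.left_inv hps
    refine ⟨π p, ⟨?_, ?_⟩, h2⟩
    · rw [← h1]
      exact Ψ.map_source hps
    · change Ψ.symm (0, π p) ∈ S
      rw [h2]
      exact ⟨hpS₀, hps⟩

end Pool.Agent.W_MP_c8d476_an
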