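import Pool.Agent.W_MP_c8d476_an.Param

open scoped Topology ContDiff ComplexConjugate
open MeasureTheory Complex

noncomputable section

namespace Pool.Agent.W_MP_c8d476_an


variable {n c : ℕ}

/-- The Hermitian product of the `b`-th blocks. -/
def blk (β : Fin n → Option (Fin c)) (b : Fin c) (w z : Cn n) : ℂ :=
  ∑ j, if β j = some b then conj (z j) * w j else 0

/-- Product of unit spheres. -/
def sphereProd (β : Fin n → Option (Fin c)) : Set (Cn n) :=
  {z | (∀ b, blk β b z z = 1) ∧ ∀ j, β j = none → z j = 0}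

/-- squared norm of the `b`-th block -/
def nsq (β : Fin n → Option (Fin c)) (b : Fin c) (v : Cn n) : ℝ :=
  ∑ j, if β j = some b then normSq (v j) else 0

theorem blk_self (β : Fin n → Option (Fin c)) (b : Fin c) (v : Cn n) :
    blk β b v v = (nsq β b v : ℂ) := by
  unfold blk nsq
  push_cast
  refine Finset.sum_congr rfl fun j _ => ?_
  split_ifs
  · rw [normSq_eq_conj_mul_self]
  · simp

theorem blk_add_left (β : Fin n → Option (Fin c)) (b : Fin c) (v w z : Cn n) :
    blk β b (v + w) z = blk β b v z + blk β b w z := by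
  unfold blk
  rw [← Finset.sum_add_distrib]
  refine Finset.sum_congr rfl fun j _ => ?_
  split_ifs <;> simp [mul_add]

theorem blk_sub_left (β : Fin n → Option (Fin c)) (b : Fin c) (v w z : Cn n) :
    blk β b (v - w) z = blk β b v z - blk β b w z := by
  unfold blk
  rw [← Finset.sum_sub_distrib]
  refine Finset.sum_congr rfl fun j _ => ?_
  split_ifs <;> simp [mul_sub]

theorem blk_smul_left (β : Fin n → Option (Fin c)) (b : Fin c) (a : ℂ) (v z : Cn n) :
    blk β b (a • v) z = a * blk β b v z := by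
  unfold blk
  rw [Finset.mul_sum]
  refine Finset.sum_congr rfl fun j _ => ?_
  split_ifs
  · simp only [Pi.smul_apply, smul_eq_mul]; ring
  · simp

theorem blk_rsmul_left (β : Fin n → Option (Fin c)) (b : Fin c) (a : ℝ) (v z : Cn n) :
    blk β b (a • v) z = a * blk β b v z := by
  have : a • v = (a : ℂ) • v := by ext j; simp
  rw [this, blk_smul_left]

theorem blk_conj (β : Fin n → Option (Fin c)) (b : Fin c) (v w : Cn n) :
    conj (blk β b v w) = blk β b w v := by
  unfold blk
  rw [map_sum]
  refine Finset.sum_congr rfl fun j _ => ?_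
  split_ifs
  · simp [mul_comm]
  · simp

theorem blk_hasDerivAt (β : Fin n → Option (Fin c)) (b : Fin c) {γ δ : ℝ → Cn n} {v w : Cn n} {t : ℝ}
    (hγ : HasDerivAt γ v t) (hδ : HasDerivAt δ w t) :
    HasDerivAt (fun s => blk β b (γ s) (δ s)) (blk β b v (δ t) + blk β b (γ t) w) t := by
  unfold blk
  rw [← Finset.sum_add_distrib]
  refine HasDerivAt.fun_sum fun j _ => ?_
  split_ifs
  · have h1 : HasDerivAt (fun s => γ s j) (v j) t := (hasDerivAt_pi.1 hγ) j
    have h2 : HasDerivAt (fun s => δ s j) (w j) t := (hasDerivAt_pi.1 hδ) j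
    have h3 : HasDerivAt (fun s => conj (δ s j)) (conj (w j)) t := h2.star
    exact (h3.fun_mul h1).congr_deriv (by ring)
  · simpa using hasDerivAt_const t (0 : ℂ)


/-- the real linear conditions defining the tangent space -/
def tanSub (β : Fin n → Option (Fin c)) (p : Cn n) : Submodule ℝ (Cn n) where
  carrier := {v | (∀ b, (blk β b v p).re = 0) ∧ ∀ j, β j = none → v j = 0}
  add_mem' := by
    rintro v w ⟨h1, h2⟩ ⟨h3, h4⟩
    refine ⟨fun b => ?_, fun j hj => ?_⟩
    · rw [blk_add_left, add_re, h1, h3, add_zero]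
    · rw [Pi.add_apply, h2 j hj, h4 j hj, add_zero]
  zero_mem' := by
    refine ⟨fun b => ?_, fun j hj => rfl⟩
    simp [blk]
  smul_mem' := by
    rintro a v ⟨h1, h2⟩
    refine ⟨fun b => ?_, fun j hj => ?_⟩
    · rw [blk_rsmul_left, re_ofReal_mul, h1, mul_zero]
    · rw [Pi.smul_apply, h2 j hj, smul_zero]

theorem nsq_nonneg (β : Fin n → Option (Fin c)) (b : Fin c) (v : Cn n) : 0 ≤ nsq β b v := by
  unfold nsq
  refine Finset.sum_nonneg fun j _ => ?_
  split_ifs
  · exact normSq_nonneg _
  · exact le_rfl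

theorem curve_deriv {β : Fin n → Option (Fin c)} {p v : Cn n} {γ : ℝ → Cn n}
    (h0 : γ 0 = p) (hγ : HasDerivAt γ v 0) (hM : ∀ᶠ t in 𝓝 0, γ t ∈ sphereProd β) :
    v ∈ tanSub β p := by
  refine ⟨fun b => ?_, fun j hj => ?_⟩
  · have h1 := blk_hasDerivAt β b hγ hγ
    have h2 : HasDerivAt (fun s => blk β b (γ s) (γ s)) 0 0 := by
      refine (hasDerivAt_const (0 : ℝ) (1 : ℂ)).congr_of_eventuallyEq ?_
      filter_upwards [hM] with t ht
      exact ht.1 b
    have h3 := h1.unique h2
    rw [h0] at h3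
    have h4 : (blk β b p v).re = (blk β b v p).re := by
      rw [← blk_conj β b v p, conj_re]
    have h5 := congrArg Complex.re h3
    rw [add_re, h4, zero_re] at h5
    linarith
  · have h1 : HasDerivAt (fun s => γ s j) (v j) 0 := (hasDerivAt_pi.1 hγ) j
    have h2 : HasDerivAt (fun s => γ s j) 0 0 := by
      refine (hasDerivAt_const (0 : ℝ) (0 : ℂ)).congr_of_eventuallyEq ?_
      filter_upwards [hM] with t ht
      exact ht.2 j hj
    exact h1.unique h2

/-- the factor normalising the `b`-th block -/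
def nfac (β : Fin n → Option (Fin c)) (v : Cn n) (j : Fin n) (t : ℝ) : ℝ :=
  match β j with
  | none => 1
  | some b => (Real.sqrt (1 + t ^ 2 * nsq β b v))⁻¹

theorem exists_curve {β : Fin n → Option (Fin c)} {p v : Cn n} (hp : p ∈ sphereProd β)
    (hv : v ∈ tanSub β p) :
    ∃ γ : ℝ → Cn n, γ 0 = p ∧ HasDerivAt γ v 0 ∧ ∀ t, γ t ∈ sphereProd β := by
  refine ⟨fun t j => (nfac β v j t : ℂ) * (p j + t * v j), ?_, ?_, fun t => ⟨fun b => ?_, fun j hj => ?_⟩⟩
  · ext j
    cases h : β j <;> simp [nfac, h]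
  · rw [hasDerivAt_pi]
    intro j
    have h1 : HasDerivAt (fun t : ℝ => p j + t * v j) (v j) 0 := by
      have := ((hasDerivAt_id (0 : ℝ)).ofReal_comp.mul_const (v j)).const_add (p j)
      simpa using this
    have h2 : HasDerivAt (nfac β v j) 0 0 := by
      unfold nfac
      cases h : β j with
      | none => exact hasDerivAt_const _ _
      | some b =>
        simp only
        have h3 : HasDerivAt (fun t : ℝ => 1 + t ^ 2 * nsq β b v) 0 0 := by
          have := ((hasDerivAt_pow 2 (0 : ℝ)).mul_const (nsq β b v)).const_add 1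
          simpa using this
        have h4 := (h3.sqrt (by norm_num)).fun_inv (by norm_num)
        simpa using h4
    have h3 := h2.ofReal_comp.fun_mul h1
    have h4 : (nfac β v j 0 : ℂ) = 1 := by
      unfold nfac
      cases h : β j <;> simp
    rw [h4] at h3
    simpa using h3
  · have h1 : 0 < 1 + t ^ 2 * nsq β b v := by
      have := mul_nonneg (sq_nonneg t) (nsq_nonneg β b v)
      linarith
    have h2 : blk β b (fun j => (nfac β v j t : ℂ) * (p j + t * v j))
        (fun j => (nfac β v j t : ℂ) * (p j + t * v j)) =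
        (((Real.sqrt (1 + t ^ 2 * nsq β b v))⁻¹ ^ 2 : ℝ) : ℂ) *
          (blk β b p p + t * (blk β b v p + blk β b p v) + t ^ 2 * blk β b v v) := by
      unfold blk
      rw [← Finset.sum_add_distrib, Finset.mul_sum, Finset.mul_sum, ← Finset.sum_add_distrib,
        ← Finset.sum_add_distrib, Finset.mul_sum]
      refine Finset.sum_congr rfl fun j _ => ?_
      split_ifs with hj
      · have h3 : nfac β v j t = (Real.sqrt (1 + t ^ 2 * nsq β b v))⁻¹ := by
          unfold nfac; rw [hj]
        beta_reduce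
        rw [h3]
        simp only [map_mul, map_add, conj_ofReal]
        push_cast
        ring
      · simp
    rw [h2, hp.1 b, blk_self, inv_pow, Real.sq_sqrt h1.le]
    have h3 : blk β b v p + blk β b p v = 0 := by
      rw [← blk_conj β b v p, add_conj, hv.1 b]; simp
    rw [h3]
    have h4 : (1 : ℂ) + t * 0 + t ^ 2 * (nsq β b v : ℂ) = ((1 + t ^ 2 * nsq β b v : ℝ) : ℂ) := by
      push_cast; ring
    rw [h4, ← ofReal_mul, inv_mul_cancel₀ h1.ne', ofReal_one]
  · beta_reduce
    rw [hp.2 j hj, hv.2 j hj]; simp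

theorem mem_tangentSpace_iff {β : Fin n → Option (Fin c)} {p v : Cn n} (hp : p ∈ sphereProd β) :
    v ∈ tangentSpace (sphereProd β) p ↔ (∀ b, (blk β b v p).re = 0) ∧ ∀ j, β j = none → v j = 0 := by
  have h : tangentSpace (sphereProd β) p = tanSub β p := by
    apply le_antisymm
    · refine Submodule.span_le.2 ?_
      rintro w ⟨γ, h0, hγ, hM⟩
      exact curve_deriv h0 hγ hM
    · intro w hw
      obtain ⟨γ, h0, hγ, hM⟩ := exists_curve hp hw
      exact Submodule.subset_span ⟨γ, h0, hγ, Filter.Eventually.of_forall hM⟩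
  rw [h]
  exact Iff.rfl

theorem mem_complexTangent_iff {β : Fin n → Option (Fin c)} {p v : Cn n} (hp : p ∈ sphereProd β) :
    v ∈ complexTangent (sphereProd β) p ↔ (∀ b, blk β b v p = 0) ∧ ∀ j, β j = none → v j = 0 := by
  have h : v ∈ complexTangent (sphereProd β) p ↔
      v ∈ tangentSpace (sphereProd β) p ∧ I • v ∈ tangentSpace (sphereProd β) p := Iff.rfl
  rw [h, mem_tangentSpace_iff hp, mem_tangentSpace_iff hp]
  constructor
  · rintro ⟨⟨h1, h2⟩, h3, h4⟩
    refine ⟨fun b => Complex.ext (h1 b) ?_, h2⟩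
    have := h3 b
    rw [blk_smul_left] at this
    simpa using this
  · rintro ⟨h1, h2⟩
    refine ⟨⟨fun b => by rw [h1 b]; rfl, h2⟩, fun b => by rw [blk_smul_left, h1 b]; simp, fun j hj => ?_⟩
    rw [Pi.smul_apply, h2 j hj, smul_zero]

end Pool.Agent.W_MP_c8d476_an
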