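import Pool.Agent.W_MP_c8d476_an.Levi

open scoped Topology ContDiff ComplexConjugate
open MeasureTheory Complex

noncomputable section

namespace Pool.Agent.W_MP_c8d476_an


variable {n c : ℕ}

/-- defining function of the product of spheres -/
def rho (β : Fin n → Option (Fin c)) (z : Cn n) : (Fin c → ℝ) × ({j // β j = none} → ℂ) :=
  (fun b => nsq β b z - 1, fun j => z j.1)

theorem contDiff_rho (β : Fin n → Option (Fin c)) {k : WithTop ℕ∞} : ContDiff ℝ k (rho β) := by
  refine ContDiff.prodMk ?_ ?_
  · rw [contDiff_pi]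
    intro b
    refine ContDiff.sub ?_ contDiff_const
    unfold nsq
    refine ContDiff.sum fun j _ => ?_
    split_ifs
    · have h : (fun z : Cn n => normSq (z j)) = fun z : Cn n => (z j).re * (z j).re + (z j).im * (z j).im := by
        ext z; rw [normSq_apply]
      rw [h]
      have hre : ContDiff ℝ k (fun z : Cn n => (z j).re) := reCLM.contDiff.comp (contDiff_apply ℝ ℂ j)
      have him : ContDiff ℝ k (fun z : Cn n => (z j).im) := imCLM.contDiff.comp (contDiff_apply ℝ ℂ j)
      exact (hre.mul hre).add (him.mul him)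
    · exact contDiff_const
  · rw [contDiff_pi]
    intro j
    exact contDiff_apply ℝ ℂ j.1

theorem rho_eq_zero_iff (β : Fin n → Option (Fin c)) (z : Cn n) :
    rho β z = 0 ↔ z ∈ sphereProd β := by
  constructor
  · intro h
    have h1 := congrArg Prod.fst h
    have h2 := congrArg Prod.snd h
    refine ⟨fun b => ?_, fun j hj => ?_⟩
    · have h3 := congrFun h1 b
      simp only [rho, Prod.fst_zero, Pi.zero_apply, sub_eq_zero] at h3
      rw [blk_self, h3, ofReal_one]
    · exact congrFun h2 ⟨j, hj⟩
  · rintro ⟨h1, h2⟩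
    refine Prod.ext ?_ ?_
    · ext b
      have h3 := h1 b
      rw [blk_self] at h3
      have h4 : nsq β b z = 1 := by exact_mod_cast h3
      simp [rho, h4]
    · ext j
      exact h2 j.1 j.2

theorem nsq_hasDerivAt (β : Fin n → Option (Fin c)) (b : Fin c) (p v : Cn n) :
    HasDerivAt (fun t : ℝ => nsq β b (p + t • v)) (2 * (blk β b v p).re) 0 := by
  have h1 : HasDerivAt (fun t : ℝ => p + t • v) v 0 := by
    have := ((hasDerivAt_id (0 : ℝ)).smul_const v).const_add p
    simpa using this
  have h2 := blk_hasDerivAt β b h1 h1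
  have h3 : (fun t : ℝ => nsq β b (p + t • v)) = fun t : ℝ => (blk β b (p + t • v) (p + t • v)).re := by
    ext t; rw [blk_self, ofReal_re]
  rw [h3]
  have h4 := (reCLM.hasFDerivAt (x := blk β b (p + (0 : ℝ) • v) (p + (0 : ℝ) • v))).comp_hasDerivAt (0 : ℝ) h2
  refine h4.congr_deriv ?_
  have h5 : (blk β b p v).re = (blk β b v p).re := by
    rw [← blk_conj β b v p, conj_re]
  simp [h5]
  ring

theorem fderiv_rho (β : Fin n → Option (Fin c)) (p v : Cn n) :
    fderiv ℝ (rho β) p v = (fun b => 2 * (blk β b v p).re, fun j => v j.1) := by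
  have h1 : HasDerivAt (fun t : ℝ => p + t • v) v 0 := by
    have := ((hasDerivAt_id (0 : ℝ)).smul_const v).const_add p
    simpa using this
  have hd : HasFDerivAt (rho β) (fderiv ℝ (rho β) p) (p + (0 : ℝ) • v) := by
    rw [zero_smul, add_zero]
    exact ((contDiff_rho β (k := 1)).differentiable one_ne_zero p).hasFDerivAt
  have h2 := hd.comp_hasDerivAt (0 : ℝ) h1
  have h3 : HasDerivAt (fun t : ℝ => rho β (p + t • v))
      ((fun b => 2 * (blk β b v p).re, fun j => v j.1) : (Fin c → ℝ) × ({j // β j = none} → ℂ)) 0 := by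
    refine HasDerivAt.prodMk ?_ ?_
    · rw [hasDerivAt_pi]
      intro b
      exact (nsq_hasDerivAt β b p v).sub_const 1
    · rw [hasDerivAt_pi]
      intro j
      exact (hasDerivAt_pi.1 h1) j.1
  exact h2.unique h3

theorem fderiv_rho_surjective (β : Fin n → Option (Fin c)) {p : Cn n} (hp : p ∈ sphereProd β) :
    Function.Surjective (fderiv ℝ (rho β) p) := by
  rintro ⟨y, w⟩
  refine ⟨fun j => match h : β j with
    | none => w ⟨j, h⟩
    | some b => ((y b / 2 : ℝ) : ℂ) * p j, ?_⟩
  rw [fderiv_rho]
  refine Prod.ext ?_ ?_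
  · ext b
    have : blk β b (fun j => match h : β j with
      | none => w ⟨j, h⟩
      | some b => ((y b / 2 : ℝ) : ℂ) * p j) p = blk β b (((y b / 2 : ℝ) : ℂ) • p) p := by
      apply blk_congr
      intro j hj
      simp only [Pi.smul_apply, smul_eq_mul]
      split
      · rename_i h; rw [hj] at h; cases h
      · rename_i b' h; rw [hj] at h; cases h; rfl
    simp only
    rw [this, blk_smul_left, hp.1 b, mul_one, ofReal_re]
    ring
  · ext ⟨j, hj⟩
    simp only
    split
    · rfl
    · rename_i b' h; rw [hj] at h; cases h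

theorem finrank_Cn (n : ℕ) : Module.finrank ℝ (Cn n) = 2 * n := by
  rw [Module.finrank_pi_fintype]
  simp [Complex.finrank_real_complex, mul_comm]

theorem exists_param_sphereProd (k : ℕ∞) (hk : 1 ≤ k) (β : Fin n → Option (Fin c)) {d : ℕ}
    (hd : 2 * n = c + 2 * Fintype.card {j // β j = none} + d) {p : Cn n} (hp : p ∈ sphereProd β) :
    ∃ (U : Set (Fin d → ℝ)) (ψ : (Fin d → ℝ) → Cn n) (π : Cn n →L[ℝ] (Fin d → ℝ)),
      IsLocalParam k (sphereProd β) U ψ ∧ p ∈ ψ '' U ∧ ∀ x ∈ U, π (ψ x) = x := by
  refine exists_localParam k hk (rho β) (contDiff_rho β) (sphereProd β) ?_ p hp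
    (fderiv_rho_surjective β hp) ?_
  · ext z
    exact (rho_eq_zero_iff β z).symm
  · rw [finrank_Cn, Module.finrank_prod, Module.finrank_pi_fintype, Module.finrank_pi_fintype]
    simp only [Module.finrank_self, Complex.finrank_real_complex, Finset.sum_const, Finset.card_univ,
      Fintype.card_fin, smul_eq_mul, mul_one]
    omega

theorem isSubmanifold_sphereProd (k : ℕ∞) (hk : 1 ≤ k) (β : Fin n → Option (Fin c)) {d : ℕ}
    (hd : 2 * n = c + 2 * Fintype.card {j // β j = none} + d) : IsSubmanifold k d (sphereProd β) := by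
  intro p hp
  obtain ⟨U, ψ, _, h1, h2, _⟩ := exists_param_sphereProd k hk β hd hp
  exact ⟨U, ψ, h1, h2⟩

/-- complex linear map with kernel `T^c` -/
def tanMap (β : Fin n → Option (Fin c)) (p : Cn n) :
    Cn n →ₗ[ℂ] (Fin c → ℂ) × ({j // β j = none} → ℂ) where
  toFun := fun v => (fun b => blk β b v p, fun j => v j.1)
  map_add' := fun v w => by
    refine Prod.ext ?_ ?_
    · ext b; simp [blk_add_left]
    · ext j; simp
  map_smul' := fun a v => by
    refine Prod.ext ?_ ?_
    · ext b; simp [blk_smul_left]
    · ext j; simp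

theorem finrank_complexTangent (β : Fin n → Option (Fin c)) {m : ℕ}
    (hd : n = c + Fintype.card {j // β j = none} + m) {p : Cn n} (hp : p ∈ sphereProd β) :
    Module.finrank ℂ (complexTangent (sphereProd β) p) = m := by
  have h1 : complexTangent (sphereProd β) p = LinearMap.ker (tanMap β p) := by
    ext v
    rw [mem_complexTangent_iff hp, LinearMap.mem_ker]
    constructor
    · rintro ⟨h1, h2⟩
      refine Prod.ext ?_ ?_
      · ext b; exact h1 b
      · ext j; exact h2 j.1 j.2
    · intro h
      exact ⟨fun b => congrFun (congrArg Prod.fst h) b, fun j hj => congrFun (congrArg Prod.snd h) ⟨j, hj⟩⟩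
  have h2 : LinearMap.range (tanMap β p) = ⊤ := by
    rw [LinearMap.range_eq_top]
    rintro ⟨y, w⟩
    refine ⟨fun j => match h : β j with
      | none => w ⟨j, h⟩
      | some b => y b * p j, ?_⟩
    refine Prod.ext ?_ ?_
    · ext b
      have : blk β b (fun j => match h : β j with
        | none => w ⟨j, h⟩
        | some b => y b * p j) p = blk β b (y b • p) p := by
        apply blk_congr
        intro j hj
        simp only [Pi.smul_apply, smul_eq_mul]
        split
        · rename_i h; rw [hj] at h; cases h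
        · rename_i b' h; rw [hj] at h; cases h; rfl
      change blk β b _ p = y b
      rw [this, blk_smul_left, hp.1 b, mul_one]
    · ext ⟨j, hj⟩
      change (match h : β j with
      | none => w ⟨j, h⟩
      | some b => y b * p j) = w ⟨j, hj⟩
      split
      · rfl
      · rename_i b' h; rw [hj] at h; cases h
  have h3 := LinearMap.finrank_range_add_finrank_ker (tanMap β p)
  rw [← h1, h2, finrank_top, Module.finrank_prod, Module.finrank_pi, Module.finrank_pi,
    Module.finrank_pi] at h3
  simp only [Fintype.card_fin] at h3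
  omega

end Pool.Agent.W_MP_c8d476_an
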