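import Pool.Agent.W_MP_c8d476_an.Submanifold

open scoped Topology ContDiff ComplexConjugate
open MeasureTheory Complex

noncomputable section

namespace Pool.Agent.W_MP_c8d476_an


variable {n c : ℕ}

theorem continuous_mul_supp {d : ℕ} {U : Set (Fin d → ℝ)} (hU : IsOpen U) {φ w : (Fin d → ℝ) → ℂ}
    (hφ : ContinuousOn φ U) (hw : Continuous w) (hs : tsupport w ⊆ U) :
    Continuous (fun x => φ x * w x) := by
  apply continuous_of_tsupport
  intro x hx
  have h1 : x ∈ tsupport w := closure_mono (fun y hy => by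
    simp only [Function.mem_support] at hy ⊢
    exact right_ne_zero_of_mul hy) hx
  exact (hφ.continuousAt (hU.mem_nhds (hs h1))).mul hw.continuousAt

theorem integrable_mul_supp {d : ℕ} {U : Set (Fin d → ℝ)} (hU : IsOpen U) {φ w : (Fin d → ℝ) → ℂ}
    (hφ : ContinuousOn φ U) (hw : Continuous w) (hc : HasCompactSupport w) (hs : tsupport w ⊆ U) :
    Integrable (fun x => φ x * w x) :=
  (continuous_mul_supp hU hφ hw hs).integrable_of_hasCompactSupport hc.mul_left

theorem divg_continuous {d : ℕ} {A : (Fin d → ℝ) → (Fin d → ℝ)} (hA : ContDiff ℝ 1 A) :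
    Continuous (divg A) := by
  unfold divg
  refine continuous_finsetSum _ fun i _ => ?_
  exact (continuous_apply i).comp ((hA.continuous_fderiv one_ne_zero).clm_apply continuous_const)

theorem divg_support {d : ℕ} {A : (Fin d → ℝ) → (Fin d → ℝ)} :
    tsupport (divg A) ⊆ tsupport A := by
  refine closure_minimal ?_ (isClosed_tsupport A)
  intro x hx
  by_contra hxA
  apply hx
  have h1 : fderiv ℝ A x = 0 := by
    have : x ∉ tsupport (fderiv ℝ A) := fun h => hxA (tsupport_fderiv_subset ℝ h)
    exact image_eq_zero_of_notMem_tsupport this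
  simp [divg, h1]

theorem integral_divg {d : ℕ} {U : Set (Fin d → ℝ)} (hU : IsOpen U) {u : (Fin d → ℝ) → ℂ}
    (hu : ContDiffOn ℝ 1 u U) {A : (Fin d → ℝ) → (Fin d → ℝ)} (hA : ContDiff ℝ 1 A)
    (hAc : HasCompactSupport A) (hAU : tsupport A ⊆ U) :
    ∫ x, u x * (divg A x : ℂ) = -∫ x, fderiv ℝ u x (A x) ∧ Integrable (fun x => fderiv ℝ u x (A x)) := by
  have hu' : ContinuousOn (fderiv ℝ u) U := hu.continuousOn_fderiv_of_isOpen hU le_rfl
  have hAd : Differentiable ℝ A := hA.differentiable one_ne_zero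
  -- the components
  let g : Fin d → (Fin d → ℝ) → ℂ := fun i x => ((A x i : ℝ) : ℂ)
  let g' : Fin d → (Fin d → ℝ) → ℂ := fun i x => ((fderiv ℝ A x (Pi.single i 1) i : ℝ) : ℂ)
  have hgc : ∀ i, Continuous (g i) := fun i =>
    continuous_ofReal.comp ((continuous_apply i).comp hA.continuous)
  have hg'c : ∀ i, Continuous (g' i) := fun i =>
    continuous_ofReal.comp ((continuous_apply i).comp
      ((hA.continuous_fderiv one_ne_zero).clm_apply continuous_const))
  have hgs : ∀ i, tsupport (g i) ⊆ tsupport A := fun i => closure_mono (fun x hx => by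
    simp only [Function.mem_support] at hx ⊢
    intro h; apply hx; simp [g, h])
  have hg's : ∀ i, tsupport (g' i) ⊆ tsupport A := fun i => by
    refine closure_minimal ?_ (isClosed_tsupport A)
    intro x hx
    by_contra hxA
    apply hx
    have h1 : fderiv ℝ A x = 0 := by
      have : x ∉ tsupport (fderiv ℝ A) := fun h => hxA (tsupport_fderiv_subset ℝ h)
      exact image_eq_zero_of_notMem_tsupport this
    simp [g', h1]
  have hgcs : ∀ i, HasCompactSupport (g i) := fun i =>
    IsCompact.of_isClosed_subset hAc (isClosed_tsupport _) (hgs i)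
  have hg'cs : ∀ i, HasCompactSupport (g' i) := fun i =>
    IsCompact.of_isClosed_subset hAc (isClosed_tsupport _) (hg's i)
  have hf'c : ∀ i : Fin d, ContinuousOn (fun x => fderiv ℝ u x (Pi.single i 1)) U := fun i =>
    hu'.clm_apply continuousOn_const
  have i1 : ∀ i, Integrable (fun x => fderiv ℝ u x (Pi.single i 1) * g i x) := fun i =>
    integrable_mul_supp hU (hf'c i) (hgc i) (hgcs i) ((hgs i).trans hAU)
  have i2 : ∀ i, Integrable (fun x => u x * g' i x) := fun i =>
    integrable_mul_supp hU hu.continuousOn (hg'c i) (hg'cs i) ((hg's i).trans hAU)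
  have i3 : ∀ i, Integrable (fun x => u x * g i x) := fun i =>
    integrable_mul_supp hU hu.continuousOn (hgc i) (hgcs i) ((hgs i).trans hAU)
  have key : ∀ i, ∫ x, u x * g' i x = -∫ x, fderiv ℝ u x (Pi.single i 1) * g i x := by
    intro i
    refine integral_bilinear_hasLineDerivAt_right_eq_neg_left_of_integrable (v := Pi.single i 1)
      (B := ContinuousLinearMap.mul ℝ ℂ) (f := u) (f' := fun x => fderiv ℝ u x (Pi.single i 1))
      (g := g i) (g' := g' i) (i1 i) (i2 i) (i3 i) ?_ ?_
    · intro x hx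
      have h1 : DifferentiableAt ℝ u x :=
        (hu.contDiffAt (hU.mem_nhds (hAU (hgs i hx)))).differentiableAt one_ne_zero
      exact h1.hasFDerivAt.hasLineDerivAt _
    · intro x _
      have h1 : HasFDerivAt (fun y => A y i) ((ContinuousLinearMap.proj i).comp (fderiv ℝ A x)) x :=
        (hasFDerivAt_pi'.1 (hAd x).hasFDerivAt) i
      have h2 : HasFDerivAt (g i) (ofRealCLM.comp ((ContinuousLinearMap.proj i).comp (fderiv ℝ A x))) x :=
        ofRealCLM.hasFDerivAt.comp x h1
      exact h2.hasLineDerivAt _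
  have e1 : ∀ x, u x * (divg A x : ℂ) = ∑ i, u x * g' i x := by
    intro x
    simp only [divg, g', ofReal_sum, Finset.mul_sum]
  have e2 : ∀ x, fderiv ℝ u x (A x) = ∑ i, fderiv ℝ u x (Pi.single i 1) * g i x := by
    intro x
    have h1 : A x = ∑ i, A x i • (Pi.single i (1 : ℝ) : Fin d → ℝ) := by
      ext j
      simp [Finset.sum_apply, Pi.single_apply]
    conv_lhs => rw [h1]
    rw [map_sum]
    refine Finset.sum_congr rfl fun i _ => ?_
    rw [map_smul, real_smul, mul_comm]
  constructor
  · simp_rw [e1, e2]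
    rw [integral_finsetSum _ fun i _ => i2 i, integral_finsetSum _ fun i _ => i1 i,
      ← Finset.sum_neg_distrib]
    exact Finset.sum_congr rfl fun i _ => key i
  · simp_rw [e2]
    exact integrable_finsetSum _ fun i _ => i1 i

theorem weakCR_smooth {k : ℕ∞} (hk : 1 ≤ k) {d : ℕ} {M : Set (Cn n)} {G : Cn n → ℂ}
    {Ω : Set (Cn n)} (hΩ : IsOpen Ω) (hMΩ : M ⊆ Ω) (hG : ContDiffOn ℂ 1 G Ω)
    {U : Set (Fin d → ℝ)} {ψ : (Fin d → ℝ) → Cn n} (hψ : IsLocalParam k M U ψ)
    {A B : (Fin d → ℝ) → (Fin d → ℝ)} (hA : ContDiff ℝ 1 A) (hB : ContDiff ℝ 1 B)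
    (hAc : HasCompactSupport A) (hBc : HasCompactSupport B) (hAU : tsupport A ⊆ U)
    (hBU : tsupport B ⊆ U) (hAB : ∀ x ∈ U, fderiv ℝ ψ x (B x) = I • fderiv ℝ ψ x (A x)) :
    ∫ x, G (ψ x) * ((divg A x : ℂ) + I * (divg B x : ℂ)) = 0 := by
  obtain ⟨hU, hψs, -, -, hopen⟩ := hψ
  have hk' : (1 : WithTop ℕ∞) ≤ k := by exact_mod_cast hk
  have hψ1 : ContDiffOn ℝ 1 ψ U := hψs.of_le hk'
  have hmaps : Set.MapsTo ψ U Ω := by
    intro x hx
    obtain ⟨W, -, hW⟩ := hopen U le_rfl hU
    have : ψ x ∈ M ∩ W := by rw [← hW]; exact ⟨x, hx, rfl⟩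
    exact hMΩ this.1
  have hGr : ContDiffOn ℝ 1 G Ω := hG.restrict_scalars ℝ
  have hu : ContDiffOn ℝ 1 (fun x => G (ψ x)) U := hGr.comp hψ1 hmaps
  obtain ⟨a1, a2⟩ := integral_divg hU hu hA hAc hAU
  obtain ⟨b1, b2⟩ := integral_divg hU hu hB hBc hBU
  have hdA : Integrable (fun x => G (ψ x) * (divg A x : ℂ)) := by
    refine integrable_mul_supp hU hu.continuousOn (continuous_ofReal.comp (divg_continuous hA)) ?_ ?_
    · exact IsCompact.of_isClosed_subset hAc (isClosed_tsupport _)
        ((closure_mono fun x hx => by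
          simp only [Function.mem_support] at hx ⊢
          intro h; apply hx; simp [h]).trans divg_support)
    · exact ((closure_mono fun x hx => by
          simp only [Function.mem_support] at hx ⊢
          intro h; apply hx; simp [h]).trans divg_support).trans hAU
  have hdB : Integrable (fun x => G (ψ x) * (divg B x : ℂ)) := by
    refine integrable_mul_supp hU hu.continuousOn (continuous_ofReal.comp (divg_continuous hB)) ?_ ?_
    · exact IsCompact.of_isClosed_subset hBc (isClosed_tsupport _)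
        ((closure_mono fun x hx => by
          simp only [Function.mem_support] at hx ⊢
          intro h; apply hx; simp [h]).trans divg_support)
    · exact ((closure_mono fun x hx => by
          simp only [Function.mem_support] at hx ⊢
          intro h; apply hx; simp [h]).trans divg_support).trans hBU
  have e1 : (fun x => G (ψ x) * ((divg A x : ℂ) + I * (divg B x : ℂ))) =
      fun x => G (ψ x) * (divg A x : ℂ) + I * (G (ψ x) * (divg B x : ℂ)) := by
    ext x; ring
  rw [e1, integral_add hdA (hdB.const_mul I), integral_const_mul, a1, b1]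
  have e2 : -(∫ x, fderiv ℝ (fun x => G (ψ x)) x (A x)) + I * -∫ x, fderiv ℝ (fun x => G (ψ x)) x (B x) =
      -∫ x, (fderiv ℝ (fun x => G (ψ x)) x (A x) + I * fderiv ℝ (fun x => G (ψ x)) x (B x)) := by
    rw [integral_add a2 (b2.const_mul I), integral_const_mul]; ring
  rw [e2, neg_eq_zero]
  have e3 : ∀ x, fderiv ℝ (fun x => G (ψ x)) x (A x) + I * fderiv ℝ (fun x => G (ψ x)) x (B x) = 0 := by
    intro x
    by_cases hx : x ∈ U
    · have h1 : DifferentiableAt ℝ ψ x := (hψ1.contDiffAt (hU.mem_nhds hx)).differentiableAt one_ne_zero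
      have h2 : DifferentiableAt ℂ G (ψ x) :=
        (hG.contDiffAt (hΩ.mem_nhds (hmaps hx))).differentiableAt one_ne_zero
      have h3 : HasFDerivAt (fun x => G (ψ x))
          (((fderiv ℂ G (ψ x)).restrictScalars ℝ).comp (fderiv ℝ ψ x)) x :=
        (h2.hasFDerivAt.restrictScalars ℝ).comp x h1.hasFDerivAt
      rw [h3.fderiv]
      simp only [ContinuousLinearMap.comp_apply, ContinuousLinearMap.coe_restrictScalars']
      rw [hAB x hx, map_smul, smul_eq_mul, ← mul_assoc, I_mul_I]
      ring
    · have h1 : A x = 0 := image_eq_zero_of_notMem_tsupport fun h => hx (hAU h)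
      have h2 : B x = 0 := image_eq_zero_of_notMem_tsupport fun h => hx (hBU h)
      rw [h1, h2]; simp
  simp_rw [e3]
  simp

/-- pointwise bounded limits of holomorphic functions are CR in the sense of distributions -/
theorem weakCR_of_approx {k : ℕ∞} (hk : 1 ≤ k) {d : ℕ} {M : Set (Cn n)} {g : Cn n → ℂ}
    (G : ℕ → Cn n → ℂ) (C : ℝ)
    (hG : ∀ N, ∃ Ω : Set (Cn n), IsOpen Ω ∧ M ⊆ Ω ∧ ContDiffOn ℂ 1 (G N) Ω)
    (hlim : ∀ z ∈ M, Filter.Tendsto (fun N => G N z) Filter.atTop (𝓝 (g z)))
    (hb : ∀ N, ∀ z ∈ M, ‖G N z‖ ≤ C) : IsWeakCR k d M g := by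
  intro U ψ hψ A B hA hB hAc hBc hAU hBU hAB
  have hψ' := hψ
  obtain ⟨hU, hψs, -, -, hopen⟩ := hψ'
  have hk' : (1 : WithTop ℕ∞) ≤ k := by exact_mod_cast hk
  have hψ1 : ContDiffOn ℝ 1 ψ U := hψs.of_le hk'
  have hmaps : Set.MapsTo ψ U M := by
    intro x hx
    obtain ⟨W, -, hW⟩ := hopen U le_rfl hU
    have : ψ x ∈ M ∩ W := by rw [← hW]; exact ⟨x, hx, rfl⟩
    exact this.1
  let w : (Fin d → ℝ) → ℂ := fun x => (divg A x : ℂ) + I * (divg B x : ℂ)
  have hwc : Continuous w := (continuous_ofReal.comp (divg_continuous hA)).add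
    (continuous_const.mul (continuous_ofReal.comp (divg_continuous hB)))
  have hws : tsupport w ⊆ tsupport A ∪ tsupport B := by
    refine closure_minimal ?_ ((isClosed_tsupport A).union (isClosed_tsupport B))
    intro x hx
    by_contra h
    rw [Set.mem_union, not_or] at h
    apply hx
    have h1 : divg A x = 0 := image_eq_zero_of_notMem_tsupport fun h' => h.1 (divg_support h')
    have h2 : divg B x = 0 := image_eq_zero_of_notMem_tsupport fun h' => h.2 (divg_support h')
    simp [w, h1, h2]
  have hwcs : HasCompactSupport w :=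
    IsCompact.of_isClosed_subset (hAc.union hBc) (isClosed_tsupport _) hws
  have hwU : tsupport w ⊆ U := hws.trans (Set.union_subset hAU hBU)
  have hzero : ∀ N, ∫ x, G N (ψ x) * w x = 0 := by
    intro N
    obtain ⟨Ω, h1, h2, h3⟩ := hG N
    exact weakCR_smooth hk h1 h2 h3 hψ hA hB hAc hBc hAU hBU hAB
  have hlim' : Filter.Tendsto (fun N => ∫ x, G N (ψ x) * w x) Filter.atTop
      (𝓝 (∫ x, g (ψ x) * w x)) := by
    refine tendsto_integral_of_dominated_convergence (fun x => C * ‖w x‖) ?_ ?_ ?_ ?_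
    · intro N
      obtain ⟨Ω, h1, h2, h3⟩ := hG N
      have h4 : ContinuousOn (fun x => G N (ψ x)) U :=
        h3.continuousOn.comp hψ1.continuousOn fun x hx => h2 (hmaps hx)
      exact (continuous_mul_supp hU h4 hwc hwU).aestronglyMeasurable
    · exact (hwc.norm.integrable_of_hasCompactSupport hwcs.norm).const_mul C
    · intro N
      refine Filter.Eventually.of_forall fun x => ?_
      rw [norm_mul]
      by_cases hx : x ∈ U
      · exact mul_le_mul_of_nonneg_right (hb N _ (hmaps hx)) (norm_nonneg _)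
      · have : w x = 0 := image_eq_zero_of_notMem_tsupport fun h => hx (hwU h)
        rw [this]; simp
    · refine Filter.Eventually.of_forall fun x => ?_
      by_cases hx : x ∈ U
      · exact (hlim _ (hmaps hx)).mul_const _
      · have : w x = 0 := image_eq_zero_of_notMem_tsupport fun h => hx (hwU h)
        rw [this]; simp
  have := tendsto_nhds_unique hlim' (by simp_rw [hzero]; exact tendsto_const_nhds)
  exact this

end Pool.Agent.W_MP_c8d476_an
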